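import Pool.Agent.H84.TO.Defs

/-!
Targets, group H: Haar measure, Stein coordinates, block coordinates.
-/

open MeasureTheory Matrix Polynomial Filter Topology
open scoped ENNReal

namespace Pool.Agent.H84.TO

/-! ## Haar measure -/

/-- left invariant probability measures on the orthogonal group: uniqueness, bi-invariance -/
def T_BIN : Prop := ∀ (ι : Type) [Fintype ι] [DecidableEq ι]
  (μ ν : Measure (Matrix.orthogonalGroup ι ℝ)) [IsProbabilityMeasure μ] [IsProbabilityMeasure ν]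
  [μ.IsMulLeftInvariant] [ν.IsMulLeftInvariant],
  μ = ν ∧ μ.IsMulRightInvariant ∧ μ.map (fun g => g⁻¹) = μ

/-- existence of Haar probability measure -/
def T_HEX : Prop := ∀ (ι : Type) [Fintype ι] [DecidableEq ι],
  ∃ μ : Measure (Matrix.orthogonalGroup ι ℝ), IsProbabilityMeasure μ ∧ μ.IsMulLeftInvariant

/-- orthonormal columns extend to an orthogonal matrix -/
def T_EXT : Prop := ∀ (ι κ : Type) [Fintype ι] [DecidableEq ι] [Fintype κ] [DecidableEq κ]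
  (V : Matrix (ι ⊕ κ) ι ℝ), Vᵀ * V = 1 →
    ∃ g : Matrix.orthogonalGroup (ι ⊕ κ) ℝ,
      (g : Matrix (ι ⊕ κ) (ι ⊕ κ) ℝ) * fromRows (1 : Matrix ι ι ℝ) (0 : Matrix κ ι ℝ) = V

/-- null sets from lines (translations and dilations) -/
def T_LIN : Prop := ∀ (m n : Type) [Fintype m] [Fintype n] (Z : Set (Matrix m n ℝ)),
  MeasurableSet Z →
    ((∃ v : Matrix m n ℝ, ∀ x : Matrix m n ℝ, volume {t : ℝ | x + t • v ∈ Z} = 0) →
      volume Z = 0) ∧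
    ((∀ x : Matrix m n ℝ, volume {t : ℝ | t • x ∈ Z} = 0) → volume Z = 0)

/-- almost every matrix has full rank -/
def T_FRK : Prop := ∀ (ι κ : Type) [Fintype ι] [DecidableEq ι] [Fintype κ] [DecidableEq κ],
  ∀ᵐ Y : Matrix (ι ⊕ κ) ι ℝ, (top Y).det ≠ 0 ∧ (Yᵀ * Y).PosDef

/-- existence and uniqueness of the positive square root -/
def T_SQ1 : Prop := ∀ (ι : Type) [Fintype ι] [DecidableEq ι] (P : Matrix ι ι ℝ), P.PosDef →
  (rt P).PosDef ∧ rt P * rt P = P ∧ ∀ R : Matrix ι ι ℝ, R.PosDef → R * R = P → R = rt P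

/-- smoothness and measurability of the square root -/
def T_SQ2 : Prop := ∀ (ι : Type) [Fintype ι] [DecidableEq ι],
  Measurable (rt : Matrix ι ι ℝ → Matrix ι ι ℝ) ∧
  ∀ P : Matrix ι ι ℝ, P.PosDef →
    ∃ (g : Matrix ι ι ℝ → Matrix ι ι ℝ) (g' : Matrix ι ι ℝ →L[ℝ] Matrix ι ι ℝ),
      HasStrictFDerivAt g g' P ∧ (∀ H, rt P * g' H + g' H * rt P = H) ∧
      (∀ H, (g' H)ᵀ = g' Hᵀ) ∧ ∀ᶠ Q in 𝓝 P, Qᵀ = Q → g Q = rt Q

/-- Haar measure and Lebesgue measure -/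
def T_HAR : Prop := ∀ (ι κ : Type) [Fintype ι] [DecidableEq ι] [Fintype κ] [DecidableEq κ]
  (μ : Measure (Matrix.orthogonalGroup (ι ⊕ κ) ℝ)) [IsProbabilityMeasure μ]
  [μ.IsMulLeftInvariant] (F : Matrix (ι ⊕ κ) ι ℝ → ℝ≥0∞) (ψ : Matrix ι ι ℝ → ℝ≥0∞),
  Measurable F → Measurable ψ →
    ∫⁻ Y : Matrix (ι ⊕ κ) ι ℝ, F (Y * (rt (Yᵀ * Y))⁻¹) * ψ (Yᵀ * Y)
      = (∫⁻ O, F ((O : Matrix (ι ⊕ κ) (ι ⊕ κ) ℝ) *
          fromRows (1 : Matrix ι ι ℝ) (0 : Matrix κ ι ℝ)) ∂μ) *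
        ∫⁻ Y : Matrix (ι ⊕ κ) ι ℝ, ψ (Yᵀ * Y)

/-- coordinate vectors are cyclic almost surely -/
def T_CYC : Prop := ∀ (ι : Type) [Fintype ι] [DecidableEq ι] (i0 : ι)
  (μ : Measure (Matrix.orthogonalGroup ι ℝ)) [IsProbabilityMeasure μ] [μ.IsMulLeftInvariant],
  ∀ᵐ O ∂μ, ∀ E : Submodule ℝ (ι → ℝ), Pi.single i0 1 ∈ E →
    (∀ x ∈ E, O.1 *ᵥ x ∈ E) → E = ⊤

/-- the truncation is almost surely stable -/
def T_STN : Prop := ∀ (ι κ : Type) [Fintype ι] [DecidableEq ι] [Fintype κ] [DecidableEq κ]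
  [Nonempty κ] (μ : Measure (Matrix.orthogonalGroup (ι ⊕ κ) ℝ)) [IsProbabilityMeasure μ]
  [μ.IsMulLeftInvariant], ∀ᵐ O ∂μ, Function.Injective (sylv (blk O) (blk O))

/-- the law of the characteristic polynomial does not depend on the index type -/
def T_TRF : Prop := ∀ (N : ℕ) (ι κ : Type) [Fintype ι] [DecidableEq ι] [Fintype κ]
  [DecidableEq κ], Fintype.card ι = N → ∀ (μ : Measure (Matrix.orthogonalGroup (ι ⊕ κ) ℝ))
  [IsProbabilityMeasure μ] [μ.IsMulLeftInvariant]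
  (ν : Measure (Matrix.orthogonalGroup (Fin N ⊕ κ) ℝ)) [IsProbabilityMeasure ν]
  [ν.IsMulLeftInvariant] (φ : ℝ[X] → ℝ), Test φ →
    Integrable (fun O => φ (blk O).charpoly) μ ∧
    ∫ O, φ (blk O).charpoly ∂μ = ∫ O, φ (blk O).charpoly ∂ν

/-! ## Stein coordinates -/

/-- left multiplication -/
def lft {m n : Type} [Fintype m] (X : Matrix m m ℝ) : Matrix m n ℝ →ₗ[ℝ] Matrix m n ℝ where
  toFun H := X * H
  map_add' P Q := by simp only [Matrix.mul_add]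
  map_smul' c Q := by simp only [Matrix.mul_smul, RingHom.id_apply]

/-- right multiplication -/
def rgt {m n : Type} [Fintype n] (Z : Matrix n n ℝ) : Matrix m n ℝ →ₗ[ℝ] Matrix m n ℝ where
  toFun H := H * Z
  map_add' P Q := by simp only [Matrix.add_mul]
  map_smul' c Q := by simp only [Matrix.smul_mul, RingHom.id_apply]

/-- determinants of multiplications; unimodular multiplications preserve Lebesgue measure -/
def T_BLKV : Prop := ∀ (m n : Type) [Fintype m] [DecidableEq m] [Fintype n] [DecidableEq n]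
  (X : Matrix m m ℝ) (Z : Matrix n n ℝ),
  LinearMap.det (lft X : Matrix m n ℝ →ₗ[ℝ] Matrix m n ℝ) = X.det ^ Fintype.card n ∧
  LinearMap.det (rgt Z : Matrix m n ℝ →ₗ[ℝ] Matrix m n ℝ) = Z.det ^ Fintype.card m ∧
  (|X.det| = 1 → MeasurePreserving (fun H : Matrix m n ℝ => X * H) volume volume) ∧
  (|Z.det| = 1 → MeasurePreserving (fun H : Matrix m n ℝ => H * Z) volume volume)

/-- measurability of the Stein data -/
def T_MSP : Prop := ∀ (ι κ : Type) [Fintype ι] [DecidableEq ι] [Fintype κ] [DecidableEq κ],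
  MeasurableSet {A : Matrix ι ι ℝ | Function.Injective (sylv A A)} ∧
  Measurable (detS : Matrix ι ι ℝ → ℝ) ∧
  Measurable (solP : Matrix (ι ⊕ κ) ι ℝ → Matrix ι ι ℝ) ∧
  MeasurableSet {Y : Matrix (ι ⊕ κ) ι ℝ | good Y} ∧
  Measurable (den : Matrix (ι ⊕ κ) ι ℝ → ℝ) ∧
  Measurable (wt : Matrix (ι ⊕ κ) ι ℝ → ℝ≥0∞)

/-- invariance under the linear group -/
def T_CON : Prop := ∀ (ι κ : Type) [Fintype ι] [DecidableEq ι] [Fintype κ] [DecidableEq κ]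
  (g : Matrix ι ι ℝ) (Y : Matrix (ι ⊕ κ) ι ℝ), IsUnit g.det →
    top (ext κ g * Y * g⁻¹) = g * top Y * g⁻¹ ∧
    detS (top (ext κ g * Y * g⁻¹)) = detS (top Y) ∧
    solP (ext κ g * Y * g⁻¹) = (g⁻¹)ᵀ * solP Y * g⁻¹ ∧
    (good (ext κ g * Y * g⁻¹) ↔ good Y) ∧
    (g.det = 1 → den (ext κ g * Y * g⁻¹) = den Y)

/-- the determinant of the twisted map -/
def T_JDT : Prop := ∀ (ι : Type) [Fintype ι] [DecidableEq ι] (M : Matrix ι ι ℝ)
  (τ T : Matrix ι ι ℝ →ₗ[ℝ] Matrix ι ι ℝ), IsUnit M.det →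
  (∀ S : Matrix ι ι ℝ, Sᵀ = S → τ S + (τ S)ᵀ = S) →
  (∀ ξ : Matrix ι ι ℝ, T ξ = ξ - τ (Mᵀ * ξ + ξᵀ * M) * M) → LinearMap.det T = detS M

/-- derivative of the map `[G; W] ↦ [P^{-1/2} G; W]` -/
def T_JAC : Prop := ∀ (ι κ : Type) [Fintype ι] [DecidableEq ι] [Fintype κ] [DecidableEq κ]
  (Y : Matrix (ι ⊕ κ) ι ℝ), (Yᵀ * Y).PosDef → (top Y).det ≠ 0 →
    ∃ D : Matrix (ι ⊕ κ) ι ℝ →L[ℝ] Matrix (ι ⊕ κ) ι ℝ,
      HasFDerivAt (fun Y : Matrix (ι ⊕ κ) ι ℝ =>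
        fromRows ((rt (Yᵀ * Y))⁻¹ * top Y) (bot Y)) D Y ∧
      |D.det| = (Yᵀ * Y).det ^ (-(Fintype.card ι : ℝ) / 2) *
        |detS ((rt (Yᵀ * Y))⁻¹ * top Y)|

/-- Haar measure in Stein coordinates -/
def T_KN : Prop := ∀ (ι κ : Type) [Fintype ι] [DecidableEq ι] [Fintype κ] [DecidableEq κ]
  [Nonempty κ] (μ : Measure (Matrix.orthogonalGroup (ι ⊕ κ) ℝ)) [IsProbabilityMeasure μ]
  [μ.IsMulLeftInvariant] (φ : ℝ[X] → ℝ≥0∞) (ψ : Matrix ι ι ℝ → ℝ≥0∞),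
  Measurable (fun A : Matrix ι ι ℝ => φ A.charpoly) → Measurable ψ →
    ∫⁻ Y in {Y : Matrix (ι ⊕ κ) ι ℝ | good Y},
        φ (top Y).charpoly * ψ (solP Y) * ENNReal.ofReal (den Y)
      = (∫⁻ O, φ (blk O).charpoly ∂μ) *
        ∫⁻ Y : Matrix (ι ⊕ κ) ι ℝ, ψ (Yᵀ * Y) * wt Y

/-! ## block coordinates -/

/-- Stein operator of a block triangular matrix -/
def T_BLS : Prop := ∀ (a b : Type) [Fintype a] [DecidableEq a] [Fintype b] [DecidableEq b]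
  (Z : Matrix a a ℝ) (A12 : Matrix a b ℝ) (A : Matrix b b ℝ),
  detS (fromBlocks Z A12 0 A) = detS Z * detS A * LinearMap.det (sylv Z A) ∧
  (Function.Injective (sylv (fromBlocks Z A12 0 A) (fromBlocks Z A12 0 A)) ↔
    Function.Injective (sylv Z Z) ∧ Function.Injective (sylv A A) ∧
      Function.Injective (sylv Z A))

/-- complement of a good pair -/
def T_CMP : Prop := ∀ (a κ : Type) [Fintype a] [DecidableEq a] [Fintype κ] [DecidableEq κ]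
  (Z1 : Matrix (a ⊕ κ) a ℝ), good Z1 → ∃ K : Matrix (a ⊕ κ) κ ℝ,
    Kᵀ * ext κ (solP Z1) * K = 1 ∧ Kᵀ * ext κ (solP Z1) * Z1 = 0

/-- block structure of the solution of the Stein equation -/
def T_STB : Prop := ∀ (a b κ : Type) [Fintype a] [DecidableEq a] [Fintype b] [DecidableEq b]
  [Fintype κ] [DecidableEq κ],
  (∀ (Z1 : Matrix (a ⊕ κ) a ℝ) (Y2 : Matrix (b ⊕ κ) b ℝ) (V : Matrix a b ℝ)
    (K : Matrix (a ⊕ κ) κ ℝ), good Z1 → Kᵀ * ext κ (solP Z1) * K = 1 →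
    Kᵀ * ext κ (solP Z1) * Z1 = 0 → Function.Injective (sylv (top Z1) (top Y2)) →
      (good (asm Z1 (K * bot Y2 + fromRows (V * top Y2 - top Z1 * V) (-(bot Z1 * V))) 0
        (top Y2)) ↔ good Y2) ∧
      (good Y2 → solP (asm Z1 (K * bot Y2 +
        fromRows (V * top Y2 - top Z1 * V) (-(bot Z1 * V))) 0 (top Y2))
          = Pasm 0 V (solP Z1) (solP Y2) ∧
        den (asm Z1 (K * bot Y2 + fromRows (V * top Y2 - top Z1 * V) (-(bot Z1 * V))) 0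
          (top Y2)) * |LinearMap.det (sylv (top Z1) (top Y2))| = den Z1 * den Y2)) ∧
  ∀ (Z1 : Matrix (a ⊕ κ) a ℝ) (T : Matrix (a ⊕ κ) b ℝ) (A : Matrix b b ℝ),
    good (asm Z1 T 0 A) → good Z1 ∧ Function.Injective (sylv (top Z1) A)

/-- the linear substitution for the off-diagonal block -/
def T_F2 : Prop := ∀ (a b κ : Type) [Fintype a] [DecidableEq a] [Fintype b] [DecidableEq b]
  [Fintype κ] [DecidableEq κ] (Z1 : Matrix (a ⊕ κ) a ℝ) (A : Matrix b b ℝ)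
  (K : Matrix (a ⊕ κ) κ ℝ), good Z1 → Kᵀ * ext κ (solP Z1) * K = 1 →
  Kᵀ * ext κ (solP Z1) * Z1 = 0 → Function.Injective (sylv (top Z1) A) →
  ∀ g : Matrix (a ⊕ κ) b ℝ → ℝ≥0∞, Measurable g →
    ∫⁻ T, g T = ENNReal.ofReal |LinearMap.det (sylv (top Z1) A)| *
      ∫⁻ V : Matrix a b ℝ, ∫⁻ C : Matrix κ b ℝ,
        g (K * C + fromRows (V * A - top Z1 * V) (-(bot Z1 * V)))

/-- Lebesgue measure in block coordinates -/
def T_BLM : Prop := ∀ (a b κ : Type) [Fintype a] [DecidableEq a] [Fintype b] [DecidableEq b]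
  [Fintype κ] [DecidableEq κ],
  (∀ f : Matrix ((a ⊕ b) ⊕ κ) (a ⊕ b) ℝ → ℝ≥0∞, Measurable f →
    ∫⁻ Y, f Y = ∫⁻ Z1 : Matrix (a ⊕ κ) a ℝ, ∫⁻ T : Matrix (a ⊕ κ) b ℝ,
      ∫⁻ X : Matrix b a ℝ, ∫⁻ A : Matrix b b ℝ, f (asm Z1 T X A)) ∧
  (∀ f : Matrix (b ⊕ κ) b ℝ → ℝ≥0∞, Measurable f →
    ∫⁻ Y, f Y = ∫⁻ A : Matrix b b ℝ, ∫⁻ C : Matrix κ b ℝ, f (fromRows A C))

/-- the cross term is invertible for almost every `Z` -/
def T_NCR : Prop := ∀ (a b : Type) [Fintype a] [DecidableEq a] [Fintype b] [DecidableEq b]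
  (A : Matrix b b ℝ), MeasurableSet {p : Matrix a a ℝ × Matrix b b ℝ |
    Function.Injective (sylv p.1 p.2)} ∧ ∀ᵐ Z : Matrix a a ℝ, Function.Injective (sylv Z A)

/-- the invariant measure factorises over block triangular pairs -/
def T_SPL : Prop := ∀ (a b κ : Type) [Fintype a] [DecidableEq a] [Fintype b] [DecidableEq b]
  [Fintype κ] [DecidableEq κ] (F : Matrix a a ℝ → Matrix b b ℝ → ℝ≥0∞)
  (ψ : Matrix (a ⊕ b) (a ⊕ b) ℝ → ℝ≥0∞), Measurable (Function.uncurry F) → Measurable ψ →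
    ∫⁻ Y in {Y : Matrix ((a ⊕ b) ⊕ κ) (a ⊕ b) ℝ | good (Phi Y)},
        F (Zof Y) (Aof Y) * ψ (solP (Phi Y)) * ENNReal.ofReal (den (Phi Y))
      = ∫⁻ X : Matrix b a ℝ, ∫⁻ V : Matrix a b ℝ,
          ∫⁻ Z1 in {Z1 : Matrix (a ⊕ κ) a ℝ | good Z1},
          ∫⁻ Y2 in {Y2 : Matrix (b ⊕ κ) b ℝ | good Y2},
            F (top Z1) (top Y2) * ψ (Pasm X V (solP Z1) (solP Y2)) *
              ENNReal.ofReal (den Z1) * ENNReal.ofReal (den Y2)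

/-- the Jacobian of the shear coordinates -/
def T_F1D : Prop := ∀ (a b κ : Type) [Fintype a] [DecidableEq a] [Fintype b] [DecidableEq b]
  [Fintype κ] [DecidableEq κ],
  ContDiff ℝ 1 (Phi : Matrix ((a ⊕ b) ⊕ κ) (a ⊕ b) ℝ → Matrix ((a ⊕ b) ⊕ κ) (a ⊕ b) ℝ) ∧
  ∀ Y : Matrix ((a ⊕ b) ⊕ κ) (a ⊕ b) ℝ,
    |(fderiv ℝ Phi Y).det| = |LinearMap.det (ric (Aof Y) (Zof Y))|

/-- area formula with multiplicities -/
def T_ARM : Prop := ∀ (m n : Type) [Fintype m] [Fintype n] (f : Matrix m n ℝ → Matrix m n ℝ)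
  (g : Matrix m n ℝ → ℝ≥0∞), ContDiff ℝ 1 f → Measurable g →
    ∫⁻ x, g x * ENNReal.ofReal |(fderiv ℝ f x).det|
      = ∫⁻ y, ∑' x : {x : Matrix m n ℝ // f x = y ∧ (fderiv ℝ f x).det ≠ 0}, g x.1

/-- the Sylvester determinant is the resultant -/
def T_RSD : Prop := ∀ (a b : Type) [Fintype a] [DecidableEq a] [Fintype b] [DecidableEq b]
  (A : Matrix b b ℝ) (Z : Matrix a a ℝ),
  LinearMap.det (ric A Z) = Rs Z.charpoly A.charpoly

/-- fibres of the shear coordinates are the quadratic divisors -/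
def T_FIB : Prop := ∀ (b κ : Type) [Fintype b] [DecidableEq b] [Fintype κ] [DecidableEq κ]
  (Y0 : Matrix ((Fin 2 ⊕ b) ⊕ κ) (Fin 2 ⊕ b) ℝ), (top Y0).charpoly.Separable →
  (∀ q ∈ QD (top Y0).charpoly, ∀ x : Fin 2 ⊕ b → ℝ, (aeval (top Y0) q) *ᵥ x = 0 →
    (∀ i : Fin 2, x (Sum.inl i) = 0) → x = 0) →
  ∀ G : ℝ[X] → ℝ[X] → ℝ≥0∞,
    ∑' Y : {Y : Matrix ((Fin 2 ⊕ b) ⊕ κ) (Fin 2 ⊕ b) ℝ //
        Phi Y = Y0 ∧ LinearMap.det (ric (Aof Y) (Zof Y)) ≠ 0},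
      G (Zof Y.1).charpoly (Aof Y.1).charpoly
    = ∑' q : QD (top Y0).charpoly, G q ((top Y0).charpoly /ₘ q)

/-- almost every matrix has distinct eigenvalues -/
def T_AED : Prop := ∀ (ι κ : Type) [Fintype ι] [DecidableEq ι] [Fintype κ] [DecidableEq κ],
  ∀ᵐ Y : Matrix (ι ⊕ κ) ι ℝ, (top Y).charpoly.Separable

/-- for almost every matrix the invariant planes are graphs -/
def T_AEG : Prop := ∀ (b κ : Type) [Fintype b] [DecidableEq b] [Fintype κ] [DecidableEq κ],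
  ∀ᵐ Y : Matrix ((Fin 2 ⊕ b) ⊕ κ) (Fin 2 ⊕ b) ℝ,
    ∀ q ∈ QD (top Y).charpoly, ∀ x : Fin 2 ⊕ b → ℝ, (aeval (top Y) q) *ᵥ x = 0 →
      (∀ i : Fin 2, x (Sum.inl i) = 0) → x = 0

/-- integration over quadratic divisors -/
def T_QS : Prop := ∀ (b κ : Type) [Fintype b] [DecidableEq b] [Fintype κ] [DecidableEq κ]
  (F : ℝ[X] → ℝ[X] → ℝ≥0∞) (θ : Matrix ((Fin 2 ⊕ b) ⊕ κ) (Fin 2 ⊕ b) ℝ → ℝ≥0∞),
  Measurable (fun p : Matrix (Fin 2) (Fin 2) ℝ × Matrix b b ℝ =>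
    F p.1.charpoly p.2.charpoly) → Measurable θ →
    ∫⁻ Y, F (Zof Y).charpoly (Aof Y).charpoly *
        ENNReal.ofReal |Rs (Zof Y).charpoly (Aof Y).charpoly| * θ (Phi Y)
      = ∫⁻ Y0, (∑' q : QD (top Y0).charpoly, F q ((top Y0).charpoly /ₘ q)) * θ Y0

end Pool.Agent.H84.TO
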