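import Pool.Agent.H84.TO.TargetsT
import Pool.Agent.H84.TO.TargetsH

/-!
Targets, group R: recursion, Pfaffian structure, moments of the 2x2 truncation, exact formula.
-/

open MeasureTheory Matrix Polynomial Filter Topology
open scoped ENNReal

namespace Pool.Agent.H84.TO

/-! ## recursion -/

/-- the constant of the recursion (before normalisation) -/
noncomputable def Cp (b κ : Type) [Fintype b] [DecidableEq b] [Fintype κ] [DecidableEq κ]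
    (ψ : Matrix (Fin 2 ⊕ b) (Fin 2 ⊕ b) ℝ → ℝ≥0∞) : ℝ≥0∞ :=
  ∫⁻ X : Matrix b (Fin 2) ℝ, ∫⁻ V : Matrix (Fin 2) b ℝ,
    ∫⁻ Y1 : Matrix (Fin 2 ⊕ κ) (Fin 2) ℝ, ∫⁻ Y2 : Matrix (b ⊕ κ) b ℝ,
      ψ (Pasm X V (Y1ᵀ * Y1) (Y2ᵀ * Y2)) * wt Y1 * wt Y2

/-- sum over quadratic divisors against the invariant measure -/
def T_RCA : Prop := ∀ (b κ : Type) [Fintype b] [DecidableEq b] [Fintype κ] [DecidableEq κ]
  [Nonempty κ] (μ2 : Measure (Matrix.orthogonalGroup (Fin 2 ⊕ κ) ℝ)) [IsProbabilityMeasure μ2]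
  [μ2.IsMulLeftInvariant] (μb : Measure (Matrix.orthogonalGroup (b ⊕ κ) ℝ))
  [IsProbabilityMeasure μb] [μb.IsMulLeftInvariant] (F : ℝ[X] → ℝ[X] → ℝ≥0∞)
  (ψ : Matrix (Fin 2 ⊕ b) (Fin 2 ⊕ b) ℝ → ℝ≥0∞),
  Measurable (fun p : Matrix (Fin 2) (Fin 2) ℝ × Matrix b b ℝ =>
    F p.1.charpoly p.2.charpoly) → Measurable ψ →
    ∫⁻ Y0 in {Y0 : Matrix ((Fin 2 ⊕ b) ⊕ κ) (Fin 2 ⊕ b) ℝ | good Y0},
        (∑' q : QD (top Y0).charpoly, F q ((top Y0).charpoly /ₘ q)) *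
          (ψ (solP Y0) * ENNReal.ofReal (den Y0))
      = (∫⁻ O2, ∫⁻ Ob, F (blk O2).charpoly (blk Ob).charpoly *
          ENNReal.ofReal |Rs (blk O2).charpoly (blk Ob).charpoly| ∂μb ∂μ2) * Cp b κ ψ

/-- the signed count of quadratic divisors -/
def T_SC : Prop := ∀ (n : ℕ) (χ : ℝ[X]), χ.Monic → χ.natDegree = 2 * n → χ.Separable →
  (QD χ).Finite ∧ (∀ q ∈ QD χ, Rs q (χ /ₘ q) ≠ 0) ∧
  {q ∈ QD χ | 0 < Rs q (χ /ₘ q)}.ncard = n + {q ∈ QD χ | Rs q (χ /ₘ q) < 0}.ncard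

/-- the recursion formula -/
def T_REC : Prop := ∀ (n : ℕ) (κ : Type) [Fintype κ] [DecidableEq κ] [Nonempty κ]
  (μN : Measure (Matrix.orthogonalGroup ((Fin 2 ⊕ Fin (2 * n)) ⊕ κ) ℝ))
  [IsProbabilityMeasure μN] [μN.IsMulLeftInvariant]
  (μ2 : Measure (Matrix.orthogonalGroup (Fin 2 ⊕ κ) ℝ)) [IsProbabilityMeasure μ2]
  [μ2.IsMulLeftInvariant] (μb : Measure (Matrix.orthogonalGroup (Fin (2 * n) ⊕ κ) ℝ))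
  [IsProbabilityMeasure μb] [μb.IsMulLeftInvariant],
  ∃ c : ℝ, 0 < c ∧ ∀ φ : ℝ[X] → ℝ, Test φ →
    ∫ O, φ (blk O).charpoly ∂μN = c * ∫ O2, ∫ Ob, Rs (blk O2).charpoly (blk Ob).charpoly *
      φ ((blk O2).charpoly * (blk Ob).charpoly) ∂μb ∂μ2

/-- shifted test functions -/
def T_TST : Prop := ∀ (φ : ℝ[X] → ℝ) (B : Matrix (Fin 2) (Fin 2) ℝ), Test φ →
  Test (fun χ => Rs B.charpoly χ * φ (B.charpoly * χ)) ∧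
  (∀ N : ℕ, Measurable (fun p : Matrix (Fin 2) (Fin 2) ℝ × Matrix (Fin N) (Fin N) ℝ =>
    Rs p.1.charpoly p.2.charpoly * φ (p.1.charpoly * p.2.charpoly))) ∧
  (∀ N : ℕ, ∀ R : ℝ, ∃ C : ℝ, ∀ (B : Matrix (Fin 2) (Fin 2) ℝ) (A : Matrix (Fin N) (Fin N) ℝ),
    (∀ i j, |B i j| ≤ R) → (∀ i j, |A i j| ≤ R) →
      |Rs B.charpoly A.charpoly * φ (B.charpoly * A.charpoly)| ≤ C)

/-- the iterated recursion -/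
def T_ITR : Prop := ∀ (ℓ : ℕ), 1 ≤ ℓ →
  ∀ (μ2 : Measure (Matrix.orthogonalGroup (Fin 2 ⊕ Fin ℓ) ℝ)) [IsProbabilityMeasure μ2]
  [μ2.IsMulLeftInvariant] (n : ℕ)
  (μ : Measure (Matrix.orthogonalGroup (Fin (2 * n) ⊕ Fin ℓ) ℝ)) [IsProbabilityMeasure μ]
  [μ.IsMulLeftInvariant], ∃ K : ℝ, 0 < K ∧ ∀ φ : ℝ[X] → ℝ, Test φ →
    ∫ O, φ (blk O).charpoly ∂μ = K * ∫ B : Fin n → Matrix (Fin 2) (Fin 2) ℝ,
      φ (∏ i, (B i).charpoly) *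
        ∏ i : Fin n, ∏ j ∈ Finset.Ioi i, Rs (B i).charpoly (B j).charpoly
        ∂(Measure.pi fun _ => om2 μ2)

/-! ## Pfaffian structure -/

/-- exponents: even for the first block, odd for the second -/
def ee {n : ℕ} : Fin n ⊕ Fin n → ℕ := Sum.elim (fun i => 2 * (i : ℕ)) (fun k => 2 * (k : ℕ) + 1)

/-- the Vandermonde identity -/
def T_VDM : Prop := ∀ (n : ℕ) (B : Fin n → Matrix (Fin 2) (Fin 2) ℝ),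
  2 ^ n * ∏ i : Fin n, ∏ j ∈ Finset.Ioi i, Rs (B i).charpoly (B j).charpoly
    = ∑ σ : Equiv.Perm (Fin n ⊕ Fin n), ((Equiv.Perm.sign σ : ℤ) : ℝ) *
        ∏ i : Fin n, sj (ee (σ (Sum.inl i))) (ee (σ (Sum.inr i))) (B i)

/-- de Bruijn's formula in the checkerboard case -/
def T_DB : Prop := ∀ (n : ℕ) (ν : Measure (Matrix (Fin 2) (Fin 2) ℝ)) [IsFiniteMeasure ν]
  (R : ℝ), (∀ᵐ B ∂ν, ∀ i j, |B i j| ≤ R) →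
  (∀ j k : ℕ, j % 2 = k % 2 → ∫ B, sj j k B ∂ν = 0) →
    ∫ B : Fin n → Matrix (Fin 2) (Fin 2) ℝ,
      (∏ i : Fin n, ∏ j ∈ Finset.Ioi i, Rs (B i).charpoly (B j).charpoly)
        ∂(Measure.pi fun _ => ν)
    = n.factorial * (Matrix.of fun i k : Fin n => ∫ B, sj (2 * i) (2 * k + 1) B ∂ν).det

/-- the indicator of no real root is a test function -/
def T_NRM : Prop := Test nr ∧ ∀ (n : ℕ) (B : Fin n → Matrix (Fin 2) (Fin 2) ℝ),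
  nr (∏ i, (B i).charpoly)
    = ∏ i, Set.indicator {B : Matrix (Fin 2) (Fin 2) ℝ | B.trace ^ 2 - 4 * B.det < 0}
        (fun _ => (1 : ℝ)) (B i)

/-! ## the 2x2 truncation -/

/-- density constant -/
noncomputable def cW (ℓ : ℕ) : ℝ :=
  ℓ / (2 * Real.pi * bt (1 / 2) (((ℓ : ℝ) - 1) / 2) * bt (1 / 2) (ℓ / 2))

/-- the unit ball -/
def Bal : Set (Matrix (Fin 2) (Fin 2) ℝ) := {B | (1 - Bᵀ * B).PosDef}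

/-- the density -/
noncomputable def dn (ℓ : ℕ) (B : Matrix (Fin 2) (Fin 2) ℝ) : ℝ :=
  (1 - Bᵀ * B).det ^ (((ℓ : ℝ) - 3) / 2)

/-- polar decomposition of `ℓ × 2` matrices -/
def T_POL : Prop := ∀ ℓ : ℕ, 2 ≤ ℓ → ∃ c : ℝ, 0 < c ∧
  ∀ g : Matrix (Fin 2) (Fin 2) ℝ → ℝ≥0∞, Measurable g →
    ∫⁻ W : Matrix (Fin ℓ) (Fin 2) ℝ, g (Wᵀ * W)
      = ENNReal.ofReal c * ∫⁻ x : ℝ, ∫⁻ y : ℝ, ∫⁻ z : ℝ,
          Set.indicator {Q : Matrix (Fin 2) (Fin 2) ℝ | Q.PosDef}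
            (fun Q => g Q * ENNReal.ofReal (Q.det ^ (((ℓ : ℝ) - 3) / 2))) !![x, y; y, z]

/-- the law of the 2x2 truncation up to a constant -/
def T_W2A : Prop := ∀ ℓ : ℕ, 2 ≤ ℓ →
  ∀ (μ : Measure (Matrix.orthogonalGroup (Fin 2 ⊕ Fin ℓ) ℝ)) [IsProbabilityMeasure μ]
  [μ.IsMulLeftInvariant], ∃ c : ℝ≥0∞, ∀ f : Matrix (Fin 2) (Fin 2) ℝ → ℝ≥0∞, Measurable f →
    ∫⁻ O, f (blk O) ∂μ = c * ∫⁻ B in Bal, f B * ENNReal.ofReal (dn ℓ B)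

/-- integration in coordinates (first row, determinant) -/
def T_W2B : Prop := ∀ ℓ : ℕ, 2 ≤ ℓ → ∀ g : ℝ → ℝ → ℝ≥0∞, Measurable (Function.uncurry g) →
  ∫⁻ B in Bal, g (B 0 0 ^ 2 + B 0 1 ^ 2) B.det * ENNReal.ofReal (dn ℓ B)
    = ENNReal.ofReal (Real.pi * bt (1 / 2) (((ℓ : ℝ) - 1) / 2)) *
      ∫⁻ r in Set.Ioo (0 : ℝ) 1, ∫⁻ t in Set.Ioo (-1 : ℝ) 1,
        g r (Real.sqrt r * t) *
          ENNReal.ofReal ((1 - r) ^ ((ℓ : ℝ) / 2 - 1) * (1 - t ^ 2) ^ ((ℓ : ℝ) / 2 - 1))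

/-- the law of the 2x2 truncation -/
def T_W2 : Prop := ∀ ℓ : ℕ, 2 ≤ ℓ →
  ∀ (μ : Measure (Matrix.orthogonalGroup (Fin 2 ⊕ Fin ℓ) ℝ)) [IsProbabilityMeasure μ]
  [μ.IsMulLeftInvariant] (f : Matrix (Fin 2) (Fin 2) ℝ → ℝ≥0∞), Measurable f →
    ∫⁻ B, f B ∂(om2 μ) = ENNReal.ofReal (cW ℓ) * ∫⁻ B in Bal, f B * ENNReal.ofReal (dn ℓ B)

/-- rotation -/
noncomputable def rot (φ : ℝ) : Matrix (Fin 2) (Fin 2) ℝ :=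
  !![Real.cos φ, -Real.sin φ; Real.sin φ, Real.cos φ]

/-- MacMahon's identity for 2x2 matrices -/
def T_MM2 : Prop := ∀ (a b c d : ℂ) (h : ℕ → ℂ), h 0 = 1 → h 1 = a + d →
  (∀ r, h (r + 2) = (a + d) * h (r + 1) - (a * d - b * c) * h r) →
  ∀ r : ℕ, h r = ∑ i ∈ Finset.range (r + 1), ∑ p ∈ Finset.range (r + 1),
    ∑ q ∈ Finset.range (r + 1), if p + q + 2 * i = r then
      ((p + i).choose i * (q + i).choose i : ℂ) * a ^ p * d ^ q * (b * c) ^ i else 0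

/-- averages over rotations -/
def T_AVG : Prop := ∀ (B : Matrix (Fin 2) (Fin 2) ℝ) (s : ℕ),
  ∫ φ in (0 : ℝ)..(2 * Real.pi), hh (rot φ * B).trace B.det (2 * s)
    = ∫ φ in (0 : ℝ)..(2 * Real.pi), ((rot φ * B) 0 0 ^ 2 + (rot φ * B) 0 1 ^ 2) ^ s

/-- symmetries of the law of the 2x2 truncation -/
def T_SYM : Prop := ∀ (ℓ : ℕ) (μ : Measure (Matrix.orthogonalGroup (Fin 2 ⊕ Fin ℓ) ℝ))
  [IsProbabilityMeasure μ] [μ.IsMulLeftInvariant], IsProbabilityMeasure (om2 μ) ∧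
  (∀ᵐ B ∂(om2 μ), ∀ i j, |B i j| ≤ 1) ∧
  (∀ g : Matrix (Fin 2) (Fin 2) ℝ, gᵀ * g = 1 → (om2 μ).map (fun B => g * B) = om2 μ) ∧
  (∀ j k : ℕ, j % 2 = k % 2 → ∫ B, sj j k B ∂(om2 μ) = 0 ∧
    ∫ B in {B : Matrix (Fin 2) (Fin 2) ℝ | B.trace ^ 2 - 4 * B.det < 0}, sj j k B ∂(om2 μ) = 0)

/-- total moments -/
def T_TOT : Prop := ∀ ℓ : ℕ, 2 ≤ ℓ →
  ∀ (μ : Measure (Matrix.orthogonalGroup (Fin 2 ⊕ Fin ℓ) ℝ)) [IsProbabilityMeasure μ]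
  [μ.IsMulLeftInvariant] (i k : ℕ),
    ∫ B, sj (2 * i) (2 * k + 1) B ∂(om2 μ)
      = if i ≤ k then bt (k + 1) (ℓ / 2) / bt 1 (ℓ / 2) *
          (bt (i + 1 / 2) (ℓ / 2) / bt (1 / 2) (ℓ / 2)) else 0

/-- change of variables to the real eigenvalues -/
def T_RE1 : Prop := ∀ ℓ : ℕ, 2 ≤ ℓ → ∀ f : ℝ → ℝ → ℝ≥0∞, Measurable (Function.uncurry f) →
  ∫⁻ B in Bal ∩ {B | 0 < B.trace ^ 2 - 4 * B.det},
      f ((B.trace - Real.sqrt (B.trace ^ 2 - 4 * B.det)) / 2)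
        ((B.trace + Real.sqrt (B.trace ^ 2 - 4 * B.det)) / 2) * ENNReal.ofReal (dn ℓ B)
    = ENNReal.ofReal (Real.pi * bt (1 / 2) (((ℓ : ℝ) - 1) / 2)) *
      ∫⁻ x in Set.Ioo (-1 : ℝ) 1, ∫⁻ y in Set.Ioo x 1, f x y *
        ENNReal.ofReal ((y - x) * ((1 - x ^ 2) ^ ((ℓ : ℝ) / 2 - 1) *
          (1 - y ^ 2) ^ ((ℓ : ℝ) / 2 - 1)))

/-- the real pairing -/
noncomputable def GG (ℓ i k : ℕ) : ℝ :=
  ∫ x in Set.Ioo (-1 : ℝ) 1, ∫ y in Set.Ioo x 1,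
    (x ^ (2 * i) * y ^ (2 * k + 1) - x ^ (2 * k + 1) * y ^ (2 * i)) *
      ((1 - x ^ 2) ^ ((ℓ : ℝ) / 2 - 1) * (1 - y ^ 2) ^ ((ℓ : ℝ) / 2 - 1))

/-- real moments -/
def T_RE2 : Prop := ∀ ℓ : ℕ, 2 ≤ ℓ →
  ∀ (μ : Measure (Matrix.orthogonalGroup (Fin 2 ⊕ Fin ℓ) ℝ)) [IsProbabilityMeasure μ]
  [μ.IsMulLeftInvariant] (i k : ℕ),
    ∫ B in {B : Matrix (Fin 2) (Fin 2) ℝ | 0 ≤ B.trace ^ 2 - 4 * B.det},
      sj (2 * i) (2 * k + 1) B ∂(om2 μ)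
      = ℓ / (2 * bt (1 / 2) (ℓ / 2)) * GG ℓ i k

/-- integration by parts -/
def T_RE3 : Prop := ∀ ℓ : ℕ, 2 ≤ ℓ → ∀ i k : ℕ,
  GG ℓ i k - 2 * k / (2 * k + ℓ) * GG ℓ i (k - 1) = 2 / (2 * k + ℓ) * bt (i + k + 1 / 2) ℓ

/-- matrix algebra -/
def T_MAT : Prop := ∀ ℓ : ℕ, 2 ≤ ℓ → ∀ n : ℕ,
  let Mt : Matrix (Fin n) (Fin n) ℝ := fun i k => if (i : ℕ) ≤ k then
    bt (k + 1) (ℓ / 2) / bt 1 (ℓ / 2) * (bt (i + 1 / 2) (ℓ / 2) / bt (1 / 2) (ℓ / 2)) else 0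
  let Mr : Matrix (Fin n) (Fin n) ℝ := fun i k => ℓ / (2 * bt (1 / 2) (ℓ / 2)) * GG ℓ i k
  0 < Mt.det ∧ (Mt - Mr).det = Mt.det * (1 - SS ℓ n).det

/-- the exact formula -/
def T_EXF : Prop := ∀ ℓ : ℕ, 2 ≤ ℓ → ∀ (n : ℕ)
  (μ : Measure (Matrix.orthogonalGroup (Fin (2 * n) ⊕ Fin ℓ) ℝ)) [IsProbabilityMeasure μ]
  [μ.IsMulLeftInvariant], ∫ O, nr (blk O).charpoly ∂μ = (1 - SS ℓ n).det

end Pool.Agent.H84.TO
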