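import Mathlib

/-!
Definitions for MP_b4e73a_pr (persistence exponent of truncated random orthogonal matrices).
Matrices with real entries carry the sup norm, the Borel sigma-algebra and Lebesgue measure.
-/

open MeasureTheory Matrix Polynomial
open scoped ENNReal

namespace Pool.Agent.H84.TO

section inst
variable {m n : Type*}
instance instMeasMat : MeasurableSpace (Matrix m n ℝ) :=
  inferInstanceAs (MeasurableSpace (m → n → ℝ))
variable [Fintype m] [Fintype n]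
noncomputable instance instNormMat : NormedAddCommGroup (Matrix m n ℝ) :=
  Matrix.normedAddCommGroup
noncomputable instance instNSMat : NormedSpace ℝ (Matrix m n ℝ) := Matrix.normedSpace
instance instSCMat : SecondCountableTopology (Matrix m n ℝ) :=
  inferInstanceAs (SecondCountableTopology (m → n → ℝ))
instance instBorelMat : BorelSpace (Matrix m n ℝ) := inferInstanceAs (BorelSpace (m → n → ℝ))
noncomputable instance instMSMat : MeasureSpace (Matrix m n ℝ) :=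
  inferInstanceAs (MeasureSpace (m → n → ℝ))
instance instHaarMat : (volume : Measure (Matrix m n ℝ)).IsAddHaarMeasure :=
  @MeasureTheory.Measure.pi.isAddHaarMeasure m (fun _ => n → ℝ) _ _ (fun _ => volume) _ _ _ _ _
instance instSFMat : SigmaFinite (volume : Measure (Matrix m n ℝ)) :=
  inferInstanceAs (SigmaFinite (volume : Measure (m → n → ℝ)))
/-! the same instances for the topology coming from the norm -/
instance instBorelMat' : @BorelSpace (Matrix m n ℝ)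
    (PseudoMetricSpace.toUniformSpace.toTopologicalSpace) instMeasMat := instBorelMat
instance instSCMat' : @SecondCountableTopology (Matrix m n ℝ)
    (PseudoMetricSpace.toUniformSpace.toTopologicalSpace) := instSCMat
instance instHaarMat' : @Measure.IsAddHaarMeasure (Matrix m n ℝ)
    (NormedAddCommGroup.toAddCommGroup.toAddGroup)
    (PseudoMetricSpace.toUniformSpace.toTopologicalSpace) instMeasMat volume := instHaarMat
instance instSCOrth {m : Type*} [Fintype m] [DecidableEq m] :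
    SecondCountableTopology (Matrix.orthogonalGroup m ℝ) :=
  TopologicalSpace.Subtype.secondCountableTopology _
end inst

variable {ι κ a b : Type} [Fintype ι] [DecidableEq ι] [Fintype κ] [DecidableEq κ]
  [Fintype a] [DecidableEq a] [Fintype b] [DecidableEq b]

/-! ## matrices -/

/-- the first block of rows (a square matrix) -/
abbrev top (Y : Matrix (ι ⊕ κ) ι ℝ) : Matrix ι ι ℝ := Y.toRows₁
/-- the last rows -/
abbrev bot (Y : Matrix (ι ⊕ κ) ι ℝ) : Matrix κ ι ℝ := Y.toRows₂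

/-- the truncation of an orthogonal matrix -/
def blk (O : Matrix.orthogonalGroup (ι ⊕ κ) ℝ) : Matrix ι ι ℝ :=
  (O : Matrix (ι ⊕ κ) (ι ⊕ κ) ℝ).toBlocks₁₁

open Classical in
/-- the positive definite square root of a positive definite matrix (else `1`) -/
noncomputable def rt (P : Matrix ι ι ℝ) : Matrix ι ι ℝ :=
  if h : ∃ R : Matrix ι ι ℝ, R.PosDef ∧ R * R = P then h.choose else 1

/-- the linear map `Q ↦ Q - Zᵀ Q A` -/
def sylv (Z : Matrix a a ℝ) (A : Matrix b b ℝ) : Matrix a b ℝ →ₗ[ℝ] Matrix a b ℝ where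
  toFun Q := Q - Zᵀ * Q * A
  map_add' P Q := by simp only [Matrix.mul_add, Matrix.add_mul]; abel
  map_smul' c Q := by
    simp only [Matrix.mul_smul, Matrix.smul_mul, RingHom.id_apply, smul_sub]

/-- the linear map `H ↦ H Z - A H` -/
def ric (A : Matrix b b ℝ) (Z : Matrix a a ℝ) : Matrix b a ℝ →ₗ[ℝ] Matrix b a ℝ where
  toFun H := H * Z - A * H
  map_add' P Q := by simp only [Matrix.mul_add, Matrix.add_mul]; abel
  map_smul' c Q := by
    simp only [Matrix.mul_smul, Matrix.smul_mul, RingHom.id_apply, smul_sub]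

/-- symmetric matrices -/
def Sy (ι : Type) [Fintype ι] : Submodule ℝ (Matrix ι ι ℝ) where
  carrier := {Q | Qᵀ = Q}
  add_mem' {P Q} hP hQ := by
    simp only [Set.mem_setOf_eq] at *
    rw [transpose_add, hP, hQ]
  zero_mem' := by simp
  smul_mem' c Q hQ := by
    simp only [Set.mem_setOf_eq] at *
    rw [transpose_smul, hQ]

theorem sylv_mem (A : Matrix ι ι ℝ) : ∀ Q ∈ Sy ι, sylv A A Q ∈ Sy ι := by
  intro Q hQ
  have h : Qᵀ = Q := hQ
  change (Q - Aᵀ * Q * A)ᵀ = Q - Aᵀ * Q * A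
  rw [transpose_sub, transpose_mul, transpose_mul, h, transpose_transpose, Matrix.mul_assoc]

/-- the determinant of `Q ↦ Q - Aᵀ Q A` on symmetric matrices -/
noncomputable def detS (A : Matrix ι ι ℝ) : ℝ :=
  LinearMap.det ((sylv A A).restrict (sylv_mem A))

open Classical in
/-- the solution `P` of `P - Aᵀ P A = Cᵀ C`, `Y = [A; C]` (if unique, else `0`) -/
noncomputable def solP (Y : Matrix (ι ⊕ κ) ι ℝ) : Matrix ι ι ℝ :=
  if Function.Injective (sylv (top Y) (top Y)) then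
    Function.invFun (sylv (top Y) (top Y)) ((bot Y)ᵀ * bot Y) else 0

/-- good pairs: the Stein equation has exactly one solution and it is positive definite -/
def good (Y : Matrix (ι ⊕ κ) ι ℝ) : Prop :=
  Function.Injective (sylv (top Y) (top Y)) ∧ (solP Y).PosDef

/-- the density of the invariant measure on pairs -/
noncomputable def den (Y : Matrix (ι ⊕ κ) ι ℝ) : ℝ :=
  (solP Y).det ^ (-(Fintype.card κ : ℝ) / 2) * |detS (top Y)|⁻¹

/-- the weight `det (Yᵀ Y) ^ (-(N+ℓ)/2)` -/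
noncomputable def wt (Y : Matrix (ι ⊕ κ) ι ℝ) : ℝ≥0∞ :=
  ENNReal.ofReal ((Yᵀ * Y).det ^ (-((Fintype.card ι : ℝ) + Fintype.card κ) / 2))

/-! ## block coordinates -/

/-- lower unipotent matrix -/
def uu (X : Matrix b a ℝ) : Matrix (a ⊕ b) (a ⊕ b) ℝ := fromBlocks 1 0 X 1
/-- upper unipotent matrix -/
def vv (V : Matrix a b ℝ) : Matrix (a ⊕ b) (a ⊕ b) ℝ := fromBlocks 1 V 0 1
/-- `g ⊕ 1` -/
def ext (κ : Type) [DecidableEq κ] (g : Matrix ι ι ℝ) : Matrix (ι ⊕ κ) (ι ⊕ κ) ℝ :=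
  fromBlocks g 0 0 1

/-- assemble a matrix from its blocks: `Z1 = [Z; C1]`, `T = [A12; C2]`, `X = A21`, `A = A22` -/
def asm (Z1 : Matrix (a ⊕ κ) a ℝ) (T : Matrix (a ⊕ κ) b ℝ) (X : Matrix b a ℝ)
    (A : Matrix b b ℝ) : Matrix ((a ⊕ b) ⊕ κ) (a ⊕ b) ℝ :=
  fromRows (fromBlocks Z1.toRows₁ T.toRows₁ X A) (fromCols Z1.toRows₂ T.toRows₂)

/-- block `11` of the square part -/
def Zof (Y : Matrix ((a ⊕ b) ⊕ κ) (a ⊕ b) ℝ) : Matrix a a ℝ := (top Y).toBlocks₁₁
/-- block `21` of the square part -/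
def Xof (Y : Matrix ((a ⊕ b) ⊕ κ) (a ⊕ b) ℝ) : Matrix b a ℝ := (top Y).toBlocks₂₁
/-- block `22` of the square part -/
def Aof (Y : Matrix ((a ⊕ b) ⊕ κ) (a ⊕ b) ℝ) : Matrix b b ℝ := (top Y).toBlocks₂₂
/-- replace block `21` by zero -/
def kill (Y : Matrix ((a ⊕ b) ⊕ κ) (a ⊕ b) ℝ) : Matrix ((a ⊕ b) ⊕ κ) (a ⊕ b) ℝ :=
  fromRows (fromBlocks (Zof Y) (top Y).toBlocks₁₂ 0 (Aof Y)) (bot Y)
/-- conjugation by a shear: the coordinates `(Z, A12, X, A', C)` -/
def Phi (Y : Matrix ((a ⊕ b) ⊕ κ) (a ⊕ b) ℝ) : Matrix ((a ⊕ b) ⊕ κ) (a ⊕ b) ℝ :=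
  ext κ (uu (Xof Y)) * kill Y * uu (-Xof Y)

/-- congruence of `P1 ⊕ P2` by the inverse of `u(X) v(V)` -/
noncomputable def Pasm (X : Matrix b a ℝ) (V : Matrix a b ℝ) (P1 : Matrix a a ℝ)
    (P2 : Matrix b b ℝ) : Matrix (a ⊕ b) (a ⊕ b) ℝ :=
  ((uu X * vv V)⁻¹)ᵀ * fromBlocks P1 0 0 P2 * (uu X * vv V)⁻¹

/-! ## polynomials -/

/-- resultant `∏ (roots of p - roots of q)` (up to nothing, for monic polynomials) -/
noncomputable def Rs (p q : ℝ[X]) : ℝ := Polynomial.resultant p q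

/-- monic quadratic divisors -/
def QD (χ : ℝ[X]) : Set ℝ[X] := {q | q.Monic ∧ q.natDegree = 2 ∧ q ∣ χ}

/-- test functions: functions of the characteristic polynomial, measurable and locally bounded -/
structure Test (φ : ℝ[X] → ℝ) : Prop where
  meas : ∀ N : ℕ, Measurable (fun A : Matrix (Fin N) (Fin N) ℝ => φ A.charpoly)
  bdd : ∀ (N : ℕ) (R : ℝ), ∃ C : ℝ, ∀ A : Matrix (Fin N) (Fin N) ℝ,
    (∀ i j, |A i j| ≤ R) → |φ A.charpoly| ≤ C

/-- complete homogeneous polynomial of two variables in terms of trace and determinant -/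
noncomputable def hh (τ δ : ℝ) : ℕ → ℝ
  | 0 => 1
  | 1 => τ
  | (r + 2) => τ * hh τ δ (r + 1) - δ * hh τ δ r

/-- `(α^j β^k - α^k β^j) / (β - α)` in terms of the trace and determinant of a 2x2 matrix -/
noncomputable def sj (j k : ℕ) (B : Matrix (Fin 2) (Fin 2) ℝ) : ℝ :=
  if j < k then B.det ^ j * hh B.trace B.det (k - j - 1)
  else if k < j then -(B.det ^ k * hh B.trace B.det (j - k - 1)) else 0

open Classical in
/-- indicator of no real root -/
noncomputable def nr (χ : ℝ[X]) : ℝ := if ∀ x : ℝ, χ.eval x ≠ 0 then 1 else 0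

/-- the law of the 2x2 truncation -/
noncomputable def om2 {ℓ : ℕ} (μ : Measure (Matrix.orthogonalGroup (Fin 2 ⊕ Fin ℓ) ℝ)) :
    Measure (Matrix (Fin 2) (Fin 2) ℝ) := μ.map blk

/-! ## real analysis -/

/-- the beta function -/
noncomputable def bt (x y : ℝ) : ℝ := Real.Gamma x * Real.Gamma y / Real.Gamma (x + y)

/-- `Γ(2j+ℓ)/Γ(2j+1)` -/
noncomputable def wg (ℓ j : ℕ) : ℝ := Real.Gamma (2 * j + ℓ) / Real.Gamma (2 * j + 1)

/-- the constant `2^{1-ℓ}/Γ(ℓ/2)^2` -/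
noncomputable def kap (ℓ : ℕ) : ℝ := 2 ^ (1 - (ℓ : ℝ)) / Real.Gamma (ℓ / 2) ^ 2

/-- the weighted Hankel matrix -/
noncomputable def SS (ℓ n : ℕ) : Matrix (Fin n) (Fin n) ℝ := fun j k =>
  kap ℓ * Real.sqrt (wg ℓ j * wg ℓ k) * bt (j + k + 1 / 2) ℓ

/-- the convolution kernel -/
noncomputable def kk (ℓ : ℕ) (y : ℝ) : ℝ :=
  Real.Gamma ℓ / Real.Gamma (ℓ / 2) ^ 2 * ((2 * Real.cosh (y / 2)) ^ ℓ)⁻¹

/-- the symbol `|Γ(ℓ/2+iξ)/Γ(ℓ/2)|²` -/
noncomputable def ss (ℓ : ℕ) (x : ℝ) : ℝ :=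
  ‖Complex.Gamma ((ℓ : ℂ) / 2 + x * Complex.I) / Complex.Gamma ((ℓ : ℂ) / 2)‖ ^ 2

/-- the convolution powers of the kernel -/
noncomputable def km (ℓ m : ℕ) (y : ℝ) : ℝ :=
  1 / (2 * Real.pi) * ∫ x : ℝ, ss ℓ x ^ m * Real.cos (x * y)

/-- `u_j` -/
noncomputable def uj (ℓ j : ℕ) (y : ℝ) : ℝ :=
  Real.sqrt (kap ℓ * wg ℓ j / 2) * (Real.tanh (y / 2)) ^ (2 * j) * ((Real.cosh (y / 2)) ^ ℓ)⁻¹

/-- the persistence exponent -/
noncomputable def theta (ℓ : ℕ) : ℝ :=
  -(1 / (2 * Real.pi)) * ∫ x in Set.Ioi (0 : ℝ),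
    Real.log (1 - ‖Complex.Gamma ((ℓ : ℂ) / 2 + x * Complex.I) / Complex.Gamma ((ℓ : ℂ) / 2)‖ ^ 2)

end Pool.Agent.H84.TO
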