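import Pool.Agent.H84.TO.TargetsR

open MeasureTheory Matrix Polynomial Filter Topology
open scoped ENNReal

namespace Pool.Agent.H84.TO

theorem continuous_hh (r : ℕ) : Continuous (fun p : ℝ × ℝ => hh p.1 p.2 r) := by
  induction r using Nat.strong_induction_on with
  | _ r ih =>
    match r with
    | 0 => simp only [hh]; exact continuous_const
    | 1 => simp only [hh]; exact continuous_fst
    | (r + 2) =>
      simp only [hh]
      exact (continuous_fst.mul (ih (r + 1) (by omega))).sub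
        (continuous_snd.mul (ih r (by omega)))

theorem continuous_sj (j k : ℕ) : Continuous (sj j k) := by
  have h : ∀ r, Continuous (fun B : Matrix (Fin 2) (Fin 2) ℝ => hh B.trace B.det r) := by
    intro r
    have h1 : Continuous (fun B : Matrix (Fin 2) (Fin 2) ℝ => (B.trace, B.det)) := by
      fun_prop
    exact (continuous_hh r).comp h1
  have h2 : Continuous (fun B : Matrix (Fin 2) (Fin 2) ℝ => B.det) := by fun_prop
  unfold sj
  split_ifs
  · exact (h2.pow _).mul (h _)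
  · exact ((h2.pow _).mul (h _)).neg
  · exact continuous_const

theorem mem_ball_iff (B : Matrix (Fin 2) (Fin 2) ℝ) :
    B ∈ Metric.closedBall (0 : Matrix (Fin 2) (Fin 2) ℝ) 1 ↔ ∀ i j, |B i j| ≤ 1 := by
  rw [mem_closedBall_zero_iff, Matrix.norm_le_iff zero_le_one]
  rfl

theorem integrable_of_box {ν : Measure (Matrix (Fin 2) (Fin 2) ℝ)} [IsFiniteMeasure ν]
    (h : ∀ᵐ B ∂ν, ∀ i j, |B i j| ≤ 1) {f : Matrix (Fin 2) (Fin 2) ℝ → ℝ} (hf : Continuous f) :
    Integrable f ν := by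
  have h1 : ∀ᵐ B ∂ν, B ∈ Metric.closedBall (0 : Matrix (Fin 2) (Fin 2) ℝ) 1 := by
    filter_upwards [h] with B hB
    exact (mem_ball_iff B).2 hB
  have h2 : ν.restrict (Metric.closedBall (0 : Matrix (Fin 2) (Fin 2) ℝ) 1) = ν :=
    Measure.restrict_eq_self_of_ae_mem h1
  rw [← h2]
  exact hf.continuousOn.integrableOn_compact (isCompact_closedBall _ _)

theorem test_one : Test (fun _ => 1) :=
  ⟨fun _ => measurable_const, fun _ _ => ⟨1, fun _ _ => by simp⟩⟩

/-- negative discriminant -/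
def Neg : Set (Matrix (Fin 2) (Fin 2) ℝ) := {B | B.trace ^ 2 - 4 * B.det < 0}

theorem measurableSet_Neg : MeasurableSet Neg := by
  have h : Continuous (fun B : Matrix (Fin 2) (Fin 2) ℝ => B.trace ^ 2 - 4 * B.det) := by
    fun_prop
  exact (isOpen_lt h continuous_const).measurableSet

theorem exf (hI : T_ITR) (hDB : T_DB) (hS : T_SYM) (hT : T_TOT) (hR : T_RE2) (hM : T_MAT)
    (hN : T_NRM) (hH : T_HEX) : T_EXF := by
  classical
  intro ℓ hℓ n μ _ _
  obtain ⟨μ2, hp2, hi2⟩ := hH (Fin 2 ⊕ Fin ℓ)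
  obtain ⟨K, hK, hI'⟩ := hI ℓ (by omega) μ2 n μ
  obtain ⟨hprob, hbox, -, hpar⟩ := hS ℓ μ2
  set ν : Measure (Matrix (Fin 2) (Fin 2) ℝ) := om2 μ2 with hν
  have h1 := hI' (fun _ => 1) test_one
  simp only [one_mul, integral_const, probReal_univ, smul_eq_mul, mul_one] at h1
  rw [hDB n ν 1 hbox (fun j k hjk => (hpar j k hjk).1)] at h1
  -- the second measure
  set ν' : Measure (Matrix (Fin 2) (Fin 2) ℝ) := ν.restrict Neg with hν'
  have h2 := hI' nr hN.1
  have h3 : ∫ B : Fin n → Matrix (Fin 2) (Fin 2) ℝ, nr (∏ i, (B i).charpoly) *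
        ∏ i : Fin n, ∏ j ∈ Finset.Ioi i, Rs (B i).charpoly (B j).charpoly
        ∂(Measure.pi fun _ => ν)
      = ∫ B : Fin n → Matrix (Fin 2) (Fin 2) ℝ,
        (∏ i : Fin n, ∏ j ∈ Finset.Ioi i, Rs (B i).charpoly (B j).charpoly)
        ∂(Measure.pi fun _ => ν') := by
    have h4 : (Measure.pi fun _ : Fin n => ν') =
        (Measure.pi fun _ : Fin n => ν).restrict (Set.pi Set.univ fun _ => Neg) := by
      rw [Measure.restrict_pi_pi]
    rw [h4, ← integral_indicator (MeasurableSet.univ_pi fun _ => measurableSet_Neg)]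
    congr 1
    funext B
    rw [hN.2 n B]
    by_cases hB : B ∈ Set.pi Set.univ (fun _ : Fin n => Neg)
    · rw [Set.indicator_of_mem hB]
      have h5 : ∀ i, Set.indicator {B : Matrix (Fin 2) (Fin 2) ℝ | B.trace ^ 2 - 4 * B.det < 0}
          (fun _ => (1 : ℝ)) (B i) = 1 := by
        intro i
        exact Set.indicator_of_mem (hB i (Set.mem_univ i)) _
      simp only [h5, Finset.prod_const_one, one_mul]
    · rw [Set.indicator_of_notMem hB]
      rw [Set.mem_univ_pi] at hB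
      push Not at hB
      obtain ⟨i, hi⟩ := hB
      have h5 : Set.indicator {B : Matrix (Fin 2) (Fin 2) ℝ | B.trace ^ 2 - 4 * B.det < 0}
          (fun _ => (1 : ℝ)) (B i) = 0 := Set.indicator_of_notMem hi _
      rw [Finset.prod_eq_zero (Finset.mem_univ i) h5, zero_mul]
  have hbox' : ∀ᵐ B ∂ν', ∀ i j, |B i j| ≤ 1 := ae_restrict_of_ae hbox
  rw [h3, hDB n ν' 1 hbox' (fun j k hjk => (hpar j k hjk).2)] at h2
  obtain ⟨hMt, hMM⟩ := hM ℓ hℓ n
  set Mt : Matrix (Fin n) (Fin n) ℝ := fun i k => if (i : ℕ) ≤ k then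
    bt (k + 1) (ℓ / 2) / bt 1 (ℓ / 2) * (bt (i + 1 / 2) (ℓ / 2) / bt (1 / 2) (ℓ / 2)) else 0
    with hMtd
  set Mr : Matrix (Fin n) (Fin n) ℝ := fun i k => ℓ / (2 * bt (1 / 2) (ℓ / 2)) * GG ℓ i k
    with hMrd
  have e1 : (Matrix.of fun i k : Fin n => ∫ B, sj (2 * i) (2 * k + 1) B ∂ν) = Mt := by
    ext i k
    exact hT ℓ hℓ μ2 i k
  have e2 : (Matrix.of fun i k : Fin n => ∫ B, sj (2 * i) (2 * k + 1) B ∂ν') = Mt - Mr := by
    ext i k
    have h6 : Integrable (sj (2 * i) (2 * k + 1)) ν := integrable_of_box hbox (continuous_sj _ _)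
    have h7 := integral_add_compl measurableSet_Neg h6
    have h8 : Negᶜ = {B : Matrix (Fin 2) (Fin 2) ℝ | 0 ≤ B.trace ^ 2 - 4 * B.det} := by
      ext B
      simp [Neg, not_lt]
    rw [h8, hR ℓ hℓ μ2 i k, hT ℓ hℓ μ2 i k] at h7
    change ∫ B in Neg, sj (2 * i) (2 * k + 1) B ∂ν = Mt i k - Mr i k
    simp only [hMtd, hMrd]
    linarith
  rw [e1] at h1
  rw [e2, hMM] at h2
  rw [h2]
  calc K * (n.factorial * (Mt.det * (1 - SS ℓ n).det))
      = (K * (n.factorial * Mt.det)) * (1 - SS ℓ n).det := by ring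
    _ = (1 - SS ℓ n).det := by rw [← h1, one_mul]

end Pool.Agent.H84.TO
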