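import Pool.Agent.H84.TO.TargetsR

/-!
The theorem of MP_b4e73a_pr from the exact formula and the asymptotics of the determinants.
-/

open MeasureTheory Matrix Polynomial Filter Topology
open scoped ENNReal

namespace Pool.Agent.H84.TO

/-- the top left `2n × 2n` block of an orthogonal matrix of size `2n + ℓ` -/
def trunc (n ℓ : ℕ) (O : Matrix.orthogonalGroup (Fin (2 * n + ℓ)) ℝ) :
    Matrix (Fin (2 * n)) (Fin (2 * n)) ℝ :=
  (O : Matrix (Fin (2 * n + ℓ)) (Fin (2 * n + ℓ)) ℝ).submatrix (Fin.castAdd ℓ) (Fin.castAdd ℓ)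

/-- the event that the truncation has no real eigenvalue -/
def noReal (n ℓ : ℕ) : Set (Matrix.orthogonalGroup (Fin (2 * n + ℓ)) ℝ) :=
  {O | ∀ x : ℝ, ¬ Module.End.HasEigenvalue (Matrix.toLin' (trunc n ℓ O)) x}

/-- reindexing as an isomorphism of orthogonal groups -/
def reI {ι ι' : Type} [Fintype ι] [DecidableEq ι] [Fintype ι'] [DecidableEq ι'] (e : ι ≃ ι') :
    Matrix.orthogonalGroup ι ℝ ≃* Matrix.orthogonalGroup ι' ℝ where
  toFun O := ⟨Matrix.reindex e e O.1, by
    rw [Matrix.mem_orthogonalGroup_iff]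
    have h := (Matrix.mem_orthogonalGroup_iff ι ℝ).1 O.2
    rw [Matrix.reindex_apply, Matrix.transpose_submatrix, Matrix.submatrix_mul_equiv, h]
    exact Matrix.submatrix_one_equiv e.symm⟩
  invFun O := ⟨Matrix.reindex e.symm e.symm O.1, by
    rw [Matrix.mem_orthogonalGroup_iff]
    have h := (Matrix.mem_orthogonalGroup_iff ι' ℝ).1 O.2
    rw [Matrix.reindex_apply, Matrix.transpose_submatrix, Matrix.submatrix_mul_equiv, h]
    exact Matrix.submatrix_one_equiv e.symm.symm⟩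
  left_inv O := by
    apply Subtype.ext
    ext i j
    simp [Matrix.reindex_apply]
  right_inv O := by
    apply Subtype.ext
    ext i j
    simp [Matrix.reindex_apply]
  map_mul' O O' := by
    apply Subtype.ext
    simp only [Submonoid.coe_mul, Matrix.reindex_apply]
    rw [Matrix.submatrix_mul_equiv]

theorem continuous_reI {ι ι' : Type} [Fintype ι] [DecidableEq ι] [Fintype ι'] [DecidableEq ι']
    (e : ι ≃ ι') : Continuous (reI e) := by
  apply Continuous.subtype_mk
  exact Continuous.matrix_submatrix continuous_subtype_val _ _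

/-- reindexing as a homeomorphism -/
def reH {ι ι' : Type} [Fintype ι] [DecidableEq ι] [Fintype ι'] [DecidableEq ι'] (e : ι ≃ ι') :
    Matrix.orthogonalGroup ι ℝ ≃ₜ Matrix.orthogonalGroup ι' ℝ where
  toEquiv := (reI e).toEquiv
  continuous_toFun := continuous_reI e
  continuous_invFun := continuous_reI e.symm

theorem continuous_trunc (n ℓ : ℕ) : Continuous (trunc n ℓ) :=
  Continuous.matrix_submatrix continuous_subtype_val _ _

theorem nr_trunc (n ℓ : ℕ) (O : Matrix.orthogonalGroup (Fin (2 * n + ℓ)) ℝ) :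
    nr (trunc n ℓ O).charpoly = Set.indicator (noReal n ℓ) (fun _ => (1 : ℝ)) O := by
  classical
  unfold nr
  by_cases hO : O ∈ noReal n ℓ
  · rw [Set.indicator_of_mem hO, if_pos]
    intro x hx
    apply hO x
    rw [Module.End.hasEigenvalue_iff_isRoot_charpoly, Matrix.charpoly_toLin']
    exact hx
  · rw [Set.indicator_of_notMem hO, if_neg]
    intro h
    apply hO
    intro x hx
    rw [Module.End.hasEigenvalue_iff_isRoot_charpoly, Matrix.charpoly_toLin'] at hx
    exact h x hx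

theorem measurableSet_noReal (hN : T_NRM) (n ℓ : ℕ) : MeasurableSet (noReal n ℓ) := by
  have h1 : Measurable (fun O : Matrix.orthogonalGroup (Fin (2 * n + ℓ)) ℝ =>
      nr (trunc n ℓ O).charpoly) := (hN.1.meas (2 * n)).comp (continuous_trunc n ℓ).measurable
  have h2 : noReal n ℓ = (fun O => nr (trunc n ℓ O).charpoly) ⁻¹' {1} := by
    ext O
    rw [Set.mem_preimage, nr_trunc, Set.mem_singleton_iff]
    by_cases hO : O ∈ noReal n ℓ
    · simp [hO]
    · simp [hO]
  rw [h2]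
  exact h1 (measurableSet_singleton 1)

theorem fin_aux (hE : T_EXF) (hN : T_NRM) (ℓ : ℕ) (hℓ : 2 ≤ ℓ) (n : ℕ)
    (μ : Measure (Matrix.orthogonalGroup (Fin (2 * n + ℓ)) ℝ)) [IsProbabilityMeasure μ]
    [μ.IsMulLeftInvariant] : μ.real (noReal n ℓ) = (1 - SS ℓ n).det := by
  classical
  set e : Fin (2 * n) ⊕ Fin ℓ ≃ Fin (2 * n + ℓ) := finSumFinEquiv with he
  have hc : Continuous (reI e.symm) := continuous_reI e.symm
  let ν : Measure (Matrix.orthogonalGroup (Fin (2 * n) ⊕ Fin ℓ) ℝ) := μ.map (reI e.symm)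
  have hp : IsProbabilityMeasure ν := Measure.isProbabilityMeasure_map hc.measurable.aemeasurable
  have hi : ν.IsMulLeftInvariant := by
    constructor
    intro g
    change Measure.map _ (μ.map (reI e.symm)) = μ.map (reI e.symm)
    rw [Measure.map_map (measurable_const_mul g) hc.measurable]
    have h2 : ((fun x => g * x) ∘ (reI e.symm)) =
        (reI e.symm) ∘ (fun x => (reI e.symm).symm g * x) := by
      funext x
      simp only [Function.comp_apply, map_mul, MulEquiv.apply_symm_apply]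
    rw [h2, ← Measure.map_map hc.measurable (measurable_const_mul _), map_mul_left_eq_self]
  have h3 := hE ℓ hℓ n ν
  rw [← h3]
  change _ = ∫ O, nr (blk O).charpoly ∂(μ.map (reH e.symm))
  rw [(reH e.symm).measurableEmbedding.integral_map]
  have hb : ∀ O, blk (reH e.symm O) = trunc n ℓ O := by
    intro O
    ext i j
    simp [blk, reH, reI, trunc, Matrix.toBlocks₁₁, he]
  simp_rw [hb, nr_trunc]
  rw [integral_indicator (measurableSet_noReal hN n ℓ)]
  simp

/-- the theorem for the subspace sigma-algebra -/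
theorem fin_main (hE : T_EXF) (hN : T_NRM) (hA : T_ASY) (hG : T_GRM) (hT2 : T_TR2) (hK3 : T_K3)
    (hD : T_DET) (ℓ : ℕ) (hℓ : 2 ≤ ℓ)
    (μ : ∀ n : ℕ, Measure (Matrix.orthogonalGroup (Fin (2 * n + ℓ)) ℝ))
    [∀ n, IsProbabilityMeasure (μ n)] [∀ n, (μ n).IsMulLeftInvariant] :
    (∀ n, 0 < (μ n).real (noReal n ℓ)) ∧
    Tendsto (fun n : ℕ => Real.log ((μ n).real (noReal n ℓ)) / Real.log n) atTop
      (𝓝 (-2 * theta ℓ)) := by
  have h1 : ∀ n, (μ n).real (noReal n ℓ) = (1 - SS ℓ n).det := fun n => fin_aux hE hN ℓ hℓ n (μ n)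
  refine ⟨fun n => ?_, ?_⟩
  · rw [h1 n]
    rcases Nat.eq_zero_or_pos n with hn | hn
    · subst hn
      simp
    refine (hD n (SS ℓ n) ((hG ℓ hℓ).2.2.1 n) ?_).1
    obtain ⟨C, hC⟩ := hT2 ℓ hℓ
    have hlog : 0 ≤ Real.log ((n : ℝ) + 1) := Real.log_nonneg (by
      have : (0 : ℝ) ≤ n := Nat.cast_nonneg n
      linarith)
    rw [← tendsto_add_atTop_iff_nat 2]
    have hps : (SS ℓ n).PosSemidef := (hG ℓ hℓ).2.2.1 n
    have hup : ∀ m : ℕ, ((SS ℓ n) ^ (m + 2)).trace
        ≤ |C| * (ℓ / (4 * Real.sqrt (m + 1 : ℕ))) * Real.log ((n : ℝ) + 1) := by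
      intro m
      have h4 := hC (m + 1) (Nat.le_add_left 1 m) n hn
      have h5 := (hK3 ℓ (by omega)).2 (m + 1) (Nat.le_add_left 1 m)
      refine h4.trans ?_
      apply mul_le_mul_of_nonneg_right _ hlog
      calc C * km ℓ (m + 1) 0 ≤ |C| * km ℓ (m + 1) 0 :=
            mul_le_mul_of_nonneg_right (le_abs_self C) (h5.2.2.1 0)
        _ ≤ |C| * (ℓ / (4 * Real.sqrt (m + 1 : ℕ))) :=
            mul_le_mul_of_nonneg_left h5.2.2.2.2.2.2.2 (abs_nonneg C)
    have hlow : ∀ m : ℕ, 0 ≤ ((SS ℓ n) ^ (m + 2)).trace := fun m => (hps.pow (m + 2)).trace_nonneg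
    refine squeeze_zero hlow hup ?_
    have h6 : Tendsto (fun m : ℕ => Real.sqrt ((m + 1 : ℕ) : ℝ)) atTop atTop :=
      Real.tendsto_sqrt_atTop.comp
        (tendsto_natCast_atTop_atTop.comp (tendsto_add_atTop_nat 1))
    have h7 : Tendsto (fun m : ℕ => (ℓ : ℝ) / (4 * Real.sqrt ((m + 1 : ℕ) : ℝ))) atTop (𝓝 0) :=
      Tendsto.div_atTop tendsto_const_nhds (h6.const_mul_atTop (by norm_num))
    have h8 := (h7.const_mul |C|).mul_const (Real.log ((n : ℝ) + 1))
    simpa using h8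
  · simp_rw [h1]
    exact hA ℓ hℓ

/-- the theorem for an arbitrary Borel structure on the orthogonal groups -/
theorem fin_borel (hE : T_EXF) (hN : T_NRM) (hA : T_ASY) (hG : T_GRM) (hT2 : T_TR2) (hK3 : T_K3)
    (hD : T_DET) (ℓ : ℕ) (hℓ : 2 ≤ ℓ)
    (inst : ∀ n : ℕ, MeasurableSpace (Matrix.orthogonalGroup (Fin (2 * n + ℓ)) ℝ))
    (hB : ∀ n : ℕ, @BorelSpace (Matrix.orthogonalGroup (Fin (2 * n + ℓ)) ℝ) _ (inst n))
    (μ : ∀ n : ℕ, @Measure (Matrix.orthogonalGroup (Fin (2 * n + ℓ)) ℝ) (inst n))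
    (hμ : ∀ n, @IsProbabilityMeasure _ (inst n) (μ n))
    (hi : ∀ n, @Measure.IsMulLeftInvariant _ (inst n) _ (μ n)) :
    (∀ n, 0 < @Measure.real _ (inst n) (μ n) (noReal n ℓ)) ∧
    Tendsto (fun n : ℕ => Real.log (@Measure.real _ (inst n) (μ n) (noReal n ℓ)) / Real.log n)
      atTop (𝓝 (-2 * theta ℓ)) := by
  have h1 : inst = fun n => (Subtype.instMeasurableSpace :
      MeasurableSpace (Matrix.orthogonalGroup (Fin (2 * n + ℓ)) ℝ)) := by
    funext n
    have h2 : @BorelSpace (Matrix.orthogonalGroup (Fin (2 * n + ℓ)) ℝ) _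
      Subtype.instMeasurableSpace := Subtype.borelSpace _
    rw [(hB n).measurable_eq, h2.measurable_eq]
  subst h1
  have := hμ
  have := hi
  exact fin_main hE hN hA hG hT2 hK3 hD ℓ hℓ μ

end Pool.Agent.H84.TO
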