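import Pool.Agent.H84.TO.TargetsR

set_option linter.unusedSectionVars false

open MeasureTheory Matrix Polynomial Filter Topology
open scoped ENNReal

namespace Pool.Agent.H84.TO.Rec

open Pool.Agent.H84.TO

/-! ### test functions -/

theorem charpoly_reindex' {ι ι' : Type} [Fintype ι] [DecidableEq ι] [Fintype ι'] [DecidableEq ι']
    (e : ι ≃ ι') (A : Matrix ι ι ℝ) : (A.submatrix e.symm e.symm).charpoly = A.charpoly :=
  Matrix.charpoly_reindex e A

theorem Test.meas' {φ : ℝ[X] → ℝ} (h : Test φ) (ι : Type) [Fintype ι] [DecidableEq ι] :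
    Measurable (fun A : Matrix ι ι ℝ => φ A.charpoly) := by
  have e := Fintype.equivFin ι
  have h1 : Continuous (fun A : Matrix ι ι ℝ => A.submatrix e.symm e.symm) :=
    Continuous.matrix_submatrix continuous_id _ _
  have h2 := (h.meas (Fintype.card ι)).comp h1.measurable
  simp only [Function.comp_def, charpoly_reindex'] at h2
  exact h2

theorem Test.bdd' {φ : ℝ[X] → ℝ} (h : Test φ) (ι : Type) [Fintype ι] [DecidableEq ι] :
    ∃ C : ℝ, ∀ A : Matrix ι ι ℝ, (∀ i j, |A i j| ≤ 1) → |φ A.charpoly| ≤ C := by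
  have e := Fintype.equivFin ι
  obtain ⟨C, hC⟩ := h.bdd (Fintype.card ι) 1
  refine ⟨C, fun A hA => ?_⟩
  rw [← charpoly_reindex' e A]
  exact hC _ fun i j => hA _ _

theorem blk_le {ι κ : Type} [Fintype ι] [DecidableEq ι] [Fintype κ] [DecidableEq κ]
    (O : Matrix.orthogonalGroup (ι ⊕ κ) ℝ) (i j : ι) : |blk O i j| ≤ 1 := by
  have h := entry_norm_bound_of_unitary O.2 (Sum.inl i) (Sum.inl j)
  simpa [blk, toBlocks₁₁] using h

theorem continuous_blk {ι κ : Type} [Fintype ι] [DecidableEq ι] [Fintype κ] [DecidableEq κ] :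
    Continuous (blk : Matrix.orthogonalGroup (ι ⊕ κ) ℝ → Matrix ι ι ℝ) := by
  unfold blk toBlocks₁₁
  exact Continuous.matrix_submatrix continuous_subtype_val _ _

theorem Test.integrable {φ : ℝ[X] → ℝ} (h : Test φ) {ι κ : Type} [Fintype ι] [DecidableEq ι]
    [Fintype κ] [DecidableEq κ] (μ : Measure (Matrix.orthogonalGroup (ι ⊕ κ) ℝ))
    [IsProbabilityMeasure μ] : Integrable (fun O => φ (blk O).charpoly) μ := by
  obtain ⟨C, hC⟩ := Test.bdd' h ι
  have hm : Measurable (fun O : Matrix.orthogonalGroup (ι ⊕ κ) ℝ => φ (blk O).charpoly) :=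
    (Test.meas' h ι).comp continuous_blk.measurable
  refine Integrable.of_bound hm.aestronglyMeasurable C ?_
  refine Filter.Eventually.of_forall fun O => ?_
  exact hC _ (blk_le O)

theorem Test.pos {φ : ℝ[X] → ℝ} (h : Test φ) : Test (fun χ => max (φ χ) 0) := by
  refine ⟨fun N => (h.meas N).max measurable_const, fun N R => ?_⟩
  obtain ⟨C, hC⟩ := h.bdd N R
  refine ⟨C, fun A hA => ?_⟩
  have h1 := hC A hA
  rw [abs_le] at h1 ⊢
  have h2 : 0 ≤ C := (abs_nonneg _).trans (hC A hA)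
  exact ⟨by linarith [le_max_right (φ A.charpoly) 0], max_le h1.2 h2⟩

theorem Test.neg {φ : ℝ[X] → ℝ} (h : Test φ) : Test (fun χ => -φ χ) := by
  refine ⟨fun N => (h.meas N).neg, fun N R => ?_⟩
  obtain ⟨C, hC⟩ := h.bdd N R
  refine ⟨C, fun A hA => ?_⟩
  rw [abs_neg]
  exact hC A hA

theorem test_one' : Test (fun _ => 1) :=
  ⟨fun _ => measurable_const, fun _ _ => ⟨1, fun _ _ => by simp⟩⟩

/-! ### counting quadratic divisors -/

theorem QD_bound (χ : ℝ[X]) (hs : χ.Separable) : (QD χ).ncard ≤ 2 ^ χ.natDegree := by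
  classical
  have hχ0 : χ.map (algebraMap ℝ ℂ) ≠ 0 := by
    rw [Polynomial.map_ne_zero_iff (algebraMap ℝ ℂ).injective]
    exact hs.ne_zero
  let f : ℝ[X] → Finset ℂ := fun q => (q.map (algebraMap ℝ ℂ)).roots.toFinset
  let t : Set (Finset ℂ) := ((χ.map (algebraMap ℝ ℂ)).roots.toFinset.powerset : Set (Finset ℂ))
  have h1 : (QD χ).ncard ≤ t.ncard := by
    apply Set.ncard_le_ncard_of_injOn f
    · intro q hq
      obtain ⟨hqm, hq2, hqd⟩ := hq
      change f q ∈ ((χ.map (algebraMap ℝ ℂ)).roots.toFinset.powerset : Set (Finset ℂ))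
      rw [Finset.mem_coe, Finset.mem_powerset]
      apply Multiset.toFinset_subset.2
      apply Multiset.subset_of_le
      exact Polynomial.roots.le_of_dvd hχ0 (Polynomial.map_dvd _ hqd)
    · intro q1 hq1 q2 hq2 h12
      obtain ⟨hm1, -, hd1⟩ := hq1
      obtain ⟨hm2, -, hd2⟩ := hq2
      have hn : ∀ q : ℝ[X], q ∣ χ → (q.map (algebraMap ℝ ℂ)).roots.Nodup := by
        intro q hq
        apply Polynomial.nodup_roots
        exact (hs.of_dvd hq).map
      have hp : ∀ q : ℝ[X], q.Monic → q ∣ χ → q.map (algebraMap ℝ ℂ) =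
          ((f q).val.map fun a => X - C a).prod := by
        intro q hqm hq
        have h3 : (f q).val = (q.map (algebraMap ℝ ℂ)).roots := by
          simp only [f]
          rw [Multiset.toFinset_val]
          exact (hn q hq).dedup
        rw [h3]
        exact (IsAlgClosed.splits _).eq_prod_roots_of_monic (hqm.map _)
      apply Polynomial.map_injective (algebraMap ℝ ℂ) (algebraMap ℝ ℂ).injective
      rw [hp q1 hm1 hd1, hp q2 hm2 hd2, h12]
  refine h1.trans ?_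
  simp only [t]
  rw [Set.ncard_coe_finset, Finset.card_powerset]
  apply Nat.pow_le_pow_right (by norm_num)
  refine (Multiset.toFinset_card_le _).trans ?_
  refine (Polynomial.card_roots' _).trans ?_
  rw [Polynomial.natDegree_map]

theorem sum_QD (χ : ℝ[X]) (hfin : (QD χ).Finite) (p : ℝ[X] → Prop) [DecidablePred p]
    (c : ℝ≥0∞) : ∑' q : QD χ, (if p q.1 then c else 0) = ({q ∈ QD χ | p q}.ncard : ℝ≥0∞) * c := by
  classical
  have : Fintype (QD χ) := hfin.fintype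
  rw [tsum_fintype]
  rw [← Finset.sum_filter, Finset.sum_const, nsmul_eq_mul]
  congr 2
  have h1 : {q ∈ QD χ | p q} = ((Finset.univ.filter fun q : QD χ => p q.1).map
      (Function.Embedding.subtype _) : Finset ℝ[X]) := by
    ext q
    simp [and_comm]
  rw [h1, Set.ncard_coe_finset, Finset.card_map]

theorem mul_div {q χ : ℝ[X]} (h : q ∈ QD χ) : q * (χ /ₘ q) = χ := by
  have h1 := Polynomial.modByMonic_add_div χ q
  rw [(Polynomial.modByMonic_eq_zero_iff_dvd h.1).2 h.2.2, zero_add] at h1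
  exact h1

/-! ### the Gaussian weight -/

/-- the weight -/
noncomputable def psi (ι κ : Type) [Fintype ι] [DecidableEq ι] [Fintype κ] [DecidableEq κ]
    (P : Matrix ι ι ℝ) : ℝ≥0∞ :=
  ENNReal.ofReal (P.det ^ (((Fintype.card ι : ℝ) + Fintype.card κ) / 2) * Real.exp (-P.trace))

theorem measurable_psi (ι κ : Type) [Fintype ι] [DecidableEq ι] [Fintype κ] [DecidableEq κ] :
    Measurable (psi ι κ) := by
  unfold psi
  have h1 : Measurable (fun P : Matrix ι ι ℝ => P.det) := by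
    apply Continuous.measurable
    fun_prop
  have h2 : Measurable (fun P : Matrix ι ι ℝ => Real.exp (-P.trace)) := by
    apply Continuous.measurable
    fun_prop
  exact ((h1.pow_const _).mul h2).ennreal_ofReal

theorem psi_total (hFR : T_FRK) (ι κ : Type) [Fintype ι] [DecidableEq ι] [Fintype κ]
    [DecidableEq κ] : ∫⁻ Y : Matrix (ι ⊕ κ) ι ℝ, psi ι κ (Yᵀ * Y) * wt Y ≠ 0 ∧
      ∫⁻ Y : Matrix (ι ⊕ κ) ι ℝ, psi ι κ (Yᵀ * Y) * wt Y ≠ ∞ := by
  have h1 : ∫⁻ Y : Matrix (ι ⊕ κ) ι ℝ, psi ι κ (Yᵀ * Y) * wt Y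
      = ∫⁻ Y : Matrix (ι ⊕ κ) ι ℝ, ENNReal.ofReal (∏ i, ∏ j, Real.exp (-(1:ℝ) * (Y i j) ^ 2)) := by
    apply lintegral_congr_ae
    filter_upwards [hFR ι κ] with Y hY
    have hd : 0 < (Yᵀ * Y).det := hY.2.det_pos
    unfold psi wt
    rw [← ENNReal.ofReal_mul (by positivity)]
    congr 1
    have h2 : (Yᵀ * Y).det ^ (((Fintype.card ι : ℝ) + Fintype.card κ) / 2) *
        (Yᵀ * Y).det ^ (-((Fintype.card ι : ℝ) + Fintype.card κ) / 2) = 1 := by
      rw [← Real.rpow_add hd]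
      have : ((Fintype.card ι : ℝ) + Fintype.card κ) / 2 +
          -((Fintype.card ι : ℝ) + Fintype.card κ) / 2 = 0 := by ring
      rw [this, Real.rpow_zero]
    have h3 : (Yᵀ * Y).trace = ∑ i, ∑ j, (Y i j) ^ 2 := by
      rw [Matrix.trace]
      simp only [diag_apply, mul_apply, transpose_apply]
      rw [Finset.sum_comm]
      apply Finset.sum_congr rfl
      intro i _
      apply Finset.sum_congr rfl
      intro j _
      ring
    calc _ = ((Yᵀ * Y).det ^ (((Fintype.card ι : ℝ) + Fintype.card κ) / 2) *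
        (Yᵀ * Y).det ^ (-((Fintype.card ι : ℝ) + Fintype.card κ) / 2)) *
          Real.exp (-(Yᵀ * Y).trace) := by ring
      _ = _ := by
        rw [h2, one_mul, h3]
        simp_rw [← Real.exp_sum]
        congr 1
        simp [Finset.sum_neg_distrib]
  rw [h1]
  have hint : Integrable (fun Y : Matrix (ι ⊕ κ) ι ℝ =>
      ∏ i, ∏ j, Real.exp (-(1:ℝ) * (Y i j) ^ 2)) := by
    have hg : Integrable (fun x : ℝ => Real.exp (-(1:ℝ) * x ^ 2)) :=
      integrable_exp_neg_mul_sq one_pos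
    have h4 : Integrable (fun y : ι → ℝ => ∏ j, Real.exp (-(1:ℝ) * (y j) ^ 2)) := by
      exact Integrable.fintype_prod (f := fun _ x => Real.exp (-(1:ℝ) * x ^ 2)) (fun _ => hg)
    exact Integrable.fintype_prod (f := fun (_ : ι ⊕ κ) (y : ι → ℝ) =>
      ∏ j, Real.exp (-(1:ℝ) * (y j) ^ 2)) (fun _ => h4)
  refine ⟨?_, ?_⟩
  · intro h5
    have h6 : Measurable (fun Y : Matrix (ι ⊕ κ) ι ℝ =>
        ENNReal.ofReal (∏ i, ∏ j, Real.exp (-(1:ℝ) * (Y i j) ^ 2))) := by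
      apply Measurable.ennreal_ofReal
      apply Continuous.measurable
      fun_prop
    rw [lintegral_eq_zero_iff h6] at h5
    have h7 : ∀ᵐ Y : Matrix (ι ⊕ κ) ι ℝ, False := by
      filter_upwards [h5] with Y hY
      have h8 : 0 < ENNReal.ofReal (∏ i, ∏ j, Real.exp (-(1:ℝ) * (Y i j) ^ 2)) := by
        rw [ENNReal.ofReal_pos]
        exact Finset.prod_pos fun i _ => Finset.prod_pos fun j _ => Real.exp_pos _
      exact absurd hY (ne_of_gt h8)
    have h8 : (volume : Measure (Matrix (ι ⊕ κ) ι ℝ)) Set.univ = 0 := by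
      have := ae_iff.1 h7
      simpa using this
    have h9 : (volume : Measure (Matrix (ι ⊕ κ) ι ℝ)) ≠ 0 := by
      intro h10
      have h11 : 0 < (volume : Measure (Matrix (ι ⊕ κ) ι ℝ)) Set.univ :=
        isOpen_univ.measure_pos volume Set.univ_nonempty
      rw [h10] at h11
      simp at h11
    exact h9 (Measure.measure_univ_eq_zero.1 h8)
  · have h9 := hint.lintegral_lt_top
    exact ne_of_lt h9

/-! ### the main computation for nonnegative test functions -/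

section main

variable (n : ℕ) (κ : Type) [Fintype κ] [DecidableEq κ]

/-- the positive part of the integrand -/
noncomputable def Fp (φ : ℝ[X] → ℝ) (q χ : ℝ[X]) : ℝ≥0∞ := by
  classical exact if 0 < Rs q χ then ENNReal.ofReal (φ (q * χ)) else 0

/-- the negative part of the integrand -/
noncomputable def Fm (φ : ℝ[X] → ℝ) (q χ : ℝ[X]) : ℝ≥0∞ := by
  classical exact if Rs q χ < 0 then ENNReal.ofReal (φ (q * χ)) else 0

theorem Fp_mul {φ : ℝ[X] → ℝ} (h0 : ∀ χ, 0 ≤ φ χ) (q χ : ℝ[X]) :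
    Fp φ q χ * ENNReal.ofReal |Rs q χ| = ENNReal.ofReal (Rs q χ * φ (q * χ)) := by
  unfold Fp
  split_ifs with h
  · rw [abs_of_pos h, ← ENNReal.ofReal_mul (h0 _), mul_comm]
  · rw [zero_mul, ENNReal.ofReal_of_nonpos]
    exact mul_nonpos_of_nonpos_of_nonneg (not_lt.1 h) (h0 _)

theorem Fm_mul {φ : ℝ[X] → ℝ} (h0 : ∀ χ, 0 ≤ φ χ) (q χ : ℝ[X]) :
    Fm φ q χ * ENNReal.ofReal |Rs q χ| = ENNReal.ofReal (-(Rs q χ * φ (q * χ))) := by
  unfold Fm
  split_ifs with h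
  · rw [abs_of_neg h, ← ENNReal.ofReal_mul (h0 _)]
    congr 1
    ring
  · rw [zero_mul, ENNReal.ofReal_of_nonpos]
    have := mul_nonneg (not_lt.1 h) (h0 (q * χ))
    linarith

theorem measurable_Rs (hT : T_TST) (N : ℕ) :
    Measurable (fun p : Matrix (Fin 2) (Fin 2) ℝ × Matrix (Fin N) (Fin N) ℝ =>
      Rs p.1.charpoly p.2.charpoly) := by
  have h := (hT (fun _ => 1) 0 test_one').2.1 N
  simpa using h

theorem measurable_Fp (hT : T_TST) {φ : ℝ[X] → ℝ} (hφ : Test φ) (N : ℕ) :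
    Measurable (fun p : Matrix (Fin 2) (Fin 2) ℝ × Matrix (Fin N) (Fin N) ℝ =>
      Fp φ p.1.charpoly p.2.charpoly) := by
  classical
  have h1 := (hT φ 0 hφ).2.1 N
  have h2 := measurable_Rs hT N
  have h3 : (fun p : Matrix (Fin 2) (Fin 2) ℝ × Matrix (Fin N) (Fin N) ℝ =>
      Fp φ p.1.charpoly p.2.charpoly) = fun p =>
      if 0 < Rs p.1.charpoly p.2.charpoly then ENNReal.ofReal
        ((Rs p.1.charpoly p.2.charpoly * φ (p.1.charpoly * p.2.charpoly)) /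
          Rs p.1.charpoly p.2.charpoly) else 0 := by
    funext p
    unfold Fp
    split_ifs with h
    · congr 1
      field_simp
    · rfl
  rw [h3]
  refine Measurable.ite (measurableSet_lt measurable_const h2) ?_ measurable_const
  exact (h1.div h2).ennreal_ofReal

theorem measurable_Fm (hT : T_TST) {φ : ℝ[X] → ℝ} (hφ : Test φ) (N : ℕ) :
    Measurable (fun p : Matrix (Fin 2) (Fin 2) ℝ × Matrix (Fin N) (Fin N) ℝ =>
      Fm φ p.1.charpoly p.2.charpoly) := by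
  classical
  have h1 := (hT φ 0 hφ).2.1 N
  have h2 := measurable_Rs hT N
  have h3 : (fun p : Matrix (Fin 2) (Fin 2) ℝ × Matrix (Fin N) (Fin N) ℝ =>
      Fm φ p.1.charpoly p.2.charpoly) = fun p =>
      if Rs p.1.charpoly p.2.charpoly < 0 then ENNReal.ofReal
        ((Rs p.1.charpoly p.2.charpoly * φ (p.1.charpoly * p.2.charpoly)) /
          Rs p.1.charpoly p.2.charpoly) else 0 := by
    funext p
    unfold Fm
    split_ifs with h
    · congr 1
      rw [mul_comm (Rs p.1.charpoly p.2.charpoly), mul_div_assoc, div_self (ne_of_lt h), mul_one]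
    · rfl
  rw [h3]
  refine Measurable.ite (measurableSet_lt h2 measurable_const) ?_ measurable_const
  exact (h1.div h2).ennreal_ofReal

/-- the weight on pairs -/
noncomputable def ww (Y : Matrix ((Fin 2 ⊕ Fin (2 * n)) ⊕ κ) (Fin 2 ⊕ Fin (2 * n)) ℝ) : ℝ≥0∞ :=
  psi (Fin 2 ⊕ Fin (2 * n)) κ (solP Y) * ENNReal.ofReal (den Y)

variable {n κ}

/-- the sums over quadratic divisors -/
theorem sums (hSC : T_SC) (φ : ℝ[X] → ℝ)
    (Y : Matrix ((Fin 2 ⊕ Fin (2 * n)) ⊕ κ) (Fin 2 ⊕ Fin (2 * n)) ℝ)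
    (hs : (top Y).charpoly.Separable) :
    (∑' q : QD (top Y).charpoly, Fp φ q ((top Y).charpoly /ₘ q))
      = (n + 1 : ℕ) * ENNReal.ofReal (φ (top Y).charpoly) +
        ∑' q : QD (top Y).charpoly, Fm φ q ((top Y).charpoly /ₘ q) ∧
    (∑' q : QD (top Y).charpoly, Fp φ q ((top Y).charpoly /ₘ q))
      ≤ (2 ^ (2 * (n + 1)) : ℕ) * ENNReal.ofReal (φ (top Y).charpoly) := by
  classical
  set χ := (top Y).charpoly with hχ
  have hm : χ.Monic := Matrix.charpoly_monic _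
  have hd : χ.natDegree = 2 * (n + 1) := by
    rw [hχ, Matrix.charpoly_natDegree_eq_dim]
    simp
    ring
  obtain ⟨hfin, -, hcount⟩ := hSC (n + 1) χ hm hd hs
  have e1 : ∑' q : QD χ, Fp φ q (χ /ₘ q) =
      ({q ∈ QD χ | 0 < Rs q (χ /ₘ q)}.ncard : ℝ≥0∞) * ENNReal.ofReal (φ χ) := by
    rw [← sum_QD χ hfin (fun q => 0 < Rs q (χ /ₘ q)) (ENNReal.ofReal (φ χ))]
    congr 1
    funext q
    unfold Fp
    rw [mul_div q.2]
  have e2 : ∑' q : QD χ, Fm φ q (χ /ₘ q) =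
      ({q ∈ QD χ | Rs q (χ /ₘ q) < 0}.ncard : ℝ≥0∞) * ENNReal.ofReal (φ χ) := by
    rw [← sum_QD χ hfin (fun q => Rs q (χ /ₘ q) < 0) (ENNReal.ofReal (φ χ))]
    congr 1
    funext q
    unfold Fm
    rw [mul_div q.2]
  rw [e1, e2]
  constructor
  · rw [hcount]
    push_cast
    ring
  · gcongr
    have h1 : {q ∈ QD χ | 0 < Rs q (χ /ₘ q)}.ncard ≤ (QD χ).ncard :=
      Set.ncard_le_ncard (fun q hq => hq.1) hfin
    have h2 := QD_bound χ hs
    rw [hd] at h2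
    exact h1.trans h2

theorem key (hRCA : T_RCA) (hKN : T_KN) (hSC : T_SC) (hAED : T_AED) (hT : T_TST) (hM : T_MSP)
    [Nonempty κ] (μN : Measure (Matrix.orthogonalGroup ((Fin 2 ⊕ Fin (2 * n)) ⊕ κ) ℝ))
    [IsProbabilityMeasure μN] [μN.IsMulLeftInvariant]
    (μ2 : Measure (Matrix.orthogonalGroup (Fin 2 ⊕ κ) ℝ)) [IsProbabilityMeasure μ2]
    [μ2.IsMulLeftInvariant] (μb : Measure (Matrix.orthogonalGroup (Fin (2 * n) ⊕ κ) ℝ))
    [IsProbabilityMeasure μb] [μb.IsMulLeftInvariant] {φ : ℝ[X] → ℝ} (hφ : Test φ) :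
    (∫⁻ O2, ∫⁻ Ob, Fp φ (blk O2).charpoly (blk Ob).charpoly *
        ENNReal.ofReal |Rs (blk O2).charpoly (blk Ob).charpoly| ∂μb ∂μ2) *
          Cp (Fin (2 * n)) κ (psi (Fin 2 ⊕ Fin (2 * n)) κ)
      = (n + 1 : ℕ) * ((∫⁻ O, ENNReal.ofReal (φ (blk O).charpoly) ∂μN) *
          ∫⁻ Y : Matrix ((Fin 2 ⊕ Fin (2 * n)) ⊕ κ) (Fin 2 ⊕ Fin (2 * n)) ℝ,
            psi (Fin 2 ⊕ Fin (2 * n)) κ (Yᵀ * Y) * wt Y) +
        (∫⁻ O2, ∫⁻ Ob, Fm φ (blk O2).charpoly (blk Ob).charpoly *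
          ENNReal.ofReal |Rs (blk O2).charpoly (blk Ob).charpoly| ∂μb ∂μ2) *
            Cp (Fin (2 * n)) κ (psi (Fin 2 ⊕ Fin (2 * n)) κ) ∧
    (∫⁻ O2, ∫⁻ Ob, Fp φ (blk O2).charpoly (blk Ob).charpoly *
        ENNReal.ofReal |Rs (blk O2).charpoly (blk Ob).charpoly| ∂μb ∂μ2) *
          Cp (Fin (2 * n)) κ (psi (Fin 2 ⊕ Fin (2 * n)) κ)
      ≤ (2 ^ (2 * (n + 1)) : ℕ) * ((∫⁻ O, ENNReal.ofReal (φ (blk O).charpoly) ∂μN) *
          ∫⁻ Y : Matrix ((Fin 2 ⊕ Fin (2 * n)) ⊕ κ) (Fin 2 ⊕ Fin (2 * n)) ℝ,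
            psi (Fin 2 ⊕ Fin (2 * n)) κ (Yᵀ * Y) * wt Y) := by
  obtain ⟨-, -, hms, hmg, hmd, -⟩ := hM (Fin 2 ⊕ Fin (2 * n)) κ
  have hpsi := measurable_psi (Fin 2 ⊕ Fin (2 * n)) κ
  have h1 := hRCA (Fin (2 * n)) κ μ2 μb (Fp φ) (psi (Fin 2 ⊕ Fin (2 * n)) κ)
    (measurable_Fp hT hφ (2 * n)) hpsi
  have h2 := hRCA (Fin (2 * n)) κ μ2 μb (Fm φ) (psi (Fin 2 ⊕ Fin (2 * n)) κ)
    (measurable_Fm hT hφ (2 * n)) hpsi
  have hφm : Measurable (fun A : Matrix (Fin 2 ⊕ Fin (2 * n)) (Fin 2 ⊕ Fin (2 * n)) ℝ =>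
      ENNReal.ofReal (φ A.charpoly)) := (Test.meas' hφ _).ennreal_ofReal
  have h3 := hKN (Fin 2 ⊕ Fin (2 * n)) κ μN (fun χ => ENNReal.ofReal (φ χ))
    (psi (Fin 2 ⊕ Fin (2 * n)) κ) hφm hpsi
  have htop : Measurable (top : Matrix ((Fin 2 ⊕ Fin (2 * n)) ⊕ κ) (Fin 2 ⊕ Fin (2 * n)) ℝ →
      Matrix (Fin 2 ⊕ Fin (2 * n)) (Fin 2 ⊕ Fin (2 * n)) ℝ) := by
    have h : Continuous (top : Matrix ((Fin 2 ⊕ Fin (2 * n)) ⊕ κ) (Fin 2 ⊕ Fin (2 * n)) ℝ →
      Matrix (Fin 2 ⊕ Fin (2 * n)) (Fin 2 ⊕ Fin (2 * n)) ℝ) := by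
      apply continuous_matrix
      intro i j
      simp only [top, toRows₁_apply]
      fun_prop
    exact h.measurable
  have hmw : Measurable (ww n κ) := by
    unfold ww
    exact (hpsi.comp hms).mul hmd.ennreal_ofReal
  have hmf : Measurable (fun Y : Matrix ((Fin 2 ⊕ Fin (2 * n)) ⊕ κ) (Fin 2 ⊕ Fin (2 * n)) ℝ =>
      ENNReal.ofReal (φ (top Y).charpoly) * ww n κ Y) := (hφm.comp htop).mul hmw
  have hsep : ∀ᵐ Y : Matrix ((Fin 2 ⊕ Fin (2 * n)) ⊕ κ) (Fin 2 ⊕ Fin (2 * n)) ℝ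
      ∂(volume.restrict {Y | good Y}), (top Y).charpoly.Separable :=
    ae_restrict_of_ae (hAED (Fin 2 ⊕ Fin (2 * n)) κ)
  have h4 : ∫⁻ Y in {Y : Matrix ((Fin 2 ⊕ Fin (2 * n)) ⊕ κ) (Fin 2 ⊕ Fin (2 * n)) ℝ | good Y},
      ENNReal.ofReal (φ (top Y).charpoly) * ww n κ Y
      = (∫⁻ O, ENNReal.ofReal (φ (blk O).charpoly) ∂μN) *
          ∫⁻ Y : Matrix ((Fin 2 ⊕ Fin (2 * n)) ⊕ κ) (Fin 2 ⊕ Fin (2 * n)) ℝ,
            psi (Fin 2 ⊕ Fin (2 * n)) κ (Yᵀ * Y) * wt Y := by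
    rw [← h3]
    congr 1
    funext Y
    unfold ww
    ring
  rw [← h1, ← h2, ← h4]
  constructor
  · rw [← lintegral_const_mul _ hmf, ← lintegral_add_left (hmf.const_mul _)]
    apply lintegral_congr_ae
    filter_upwards [hsep] with Y hY
    change _ * ww n κ Y = _ + _ * ww n κ Y
    rw [(sums hSC φ Y hY).1]
    ring
  · rw [← lintegral_const_mul _ hmf]
    apply lintegral_mono_ae
    filter_upwards [hsep] with Y hY
    change _ * ww n κ Y ≤ _
    rw [← mul_assoc]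
    exact mul_le_mul_left (sums hSC φ Y hY).2 _

/-- the integrand of the double integral -/
noncomputable def hfun (φ : ℝ[X] → ℝ) (p : Matrix.orthogonalGroup (Fin 2 ⊕ κ) ℝ ×
    Matrix.orthogonalGroup (Fin (2 * n) ⊕ κ) ℝ) : ℝ :=
  Rs (blk p.1).charpoly (blk p.2).charpoly * φ ((blk p.1).charpoly * (blk p.2).charpoly)

theorem measurable_hfun (hT : T_TST) {φ : ℝ[X] → ℝ} (hφ : Test φ) :
    Measurable (hfun (n := n) (κ := κ) φ) := by
  have h1 := (hT φ 0 hφ).2.1 (2 * n)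
  have h2 : Measurable (fun p : Matrix.orthogonalGroup (Fin 2 ⊕ κ) ℝ ×
      Matrix.orthogonalGroup (Fin (2 * n) ⊕ κ) ℝ => (blk p.1, blk p.2)) :=
    (continuous_blk.measurable.comp measurable_fst).prodMk
      (continuous_blk.measurable.comp measurable_snd)
  have h3 := h1.comp h2
  simp only [Function.comp_def] at h3
  exact h3

theorem bound_hfun (hT : T_TST) {φ : ℝ[X] → ℝ} (hφ : Test φ) :
    ∃ C : ℝ, ∀ p, |hfun (n := n) (κ := κ) φ p| ≤ C := by
  obtain ⟨C, hC⟩ := (hT φ 0 hφ).2.2 (2 * n) 1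
  exact ⟨C, fun p => hC _ _ (blk_le _) (blk_le _)⟩

theorem integrable_hfun (hT : T_TST) {φ : ℝ[X] → ℝ} (hφ : Test φ)
    (μ2 : Measure (Matrix.orthogonalGroup (Fin 2 ⊕ κ) ℝ)) [IsProbabilityMeasure μ2]
    (μb : Measure (Matrix.orthogonalGroup (Fin (2 * n) ⊕ κ) ℝ))
    [IsProbabilityMeasure μb] : Integrable (hfun (n := n) (κ := κ) φ) (μ2.prod μb) := by
  obtain ⟨C, hC⟩ := bound_hfun (n := n) (κ := κ) hT hφ
  exact Integrable.of_bound (measurable_hfun hT hφ).aestronglyMeasurable C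
    (Filter.Eventually.of_forall hC)

theorem dbl (hT : T_TST) {φ : ℝ[X] → ℝ} (hφ : Test φ) (h0 : ∀ χ, 0 ≤ φ χ)
    (μ2 : Measure (Matrix.orthogonalGroup (Fin 2 ⊕ κ) ℝ)) [IsProbabilityMeasure μ2]
    (μb : Measure (Matrix.orthogonalGroup (Fin (2 * n) ⊕ κ) ℝ)) [IsProbabilityMeasure μb] :
    (∫⁻ O2, ∫⁻ Ob, Fp φ (blk O2).charpoly (blk Ob).charpoly *
        ENNReal.ofReal |Rs (blk O2).charpoly (blk Ob).charpoly| ∂μb ∂μ2) ≠ ∞ ∧
    (∫⁻ O2, ∫⁻ Ob, Fm φ (blk O2).charpoly (blk Ob).charpoly *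
        ENNReal.ofReal |Rs (blk O2).charpoly (blk Ob).charpoly| ∂μb ∂μ2) ≠ ∞ ∧
    ∫ O2, ∫ Ob, Rs (blk O2).charpoly (blk Ob).charpoly *
      φ ((blk O2).charpoly * (blk Ob).charpoly) ∂μb ∂μ2
      = (∫⁻ O2, ∫⁻ Ob, Fp φ (blk O2).charpoly (blk Ob).charpoly *
        ENNReal.ofReal |Rs (blk O2).charpoly (blk Ob).charpoly| ∂μb ∂μ2).toReal -
        (∫⁻ O2, ∫⁻ Ob, Fm φ (blk O2).charpoly (blk Ob).charpoly *
        ENNReal.ofReal |Rs (blk O2).charpoly (blk Ob).charpoly| ∂μb ∂μ2).toReal := by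
  simp_rw [Fp_mul h0, Fm_mul h0]
  have hm := measurable_hfun (n := n) (κ := κ) hT hφ
  have hi := integrable_hfun (n := n) (κ := κ) hT hφ μ2 μb
  have e1 : ∫⁻ O2, ∫⁻ Ob, ENNReal.ofReal (Rs (blk O2).charpoly (blk Ob).charpoly *
      φ ((blk O2).charpoly * (blk Ob).charpoly)) ∂μb ∂μ2
      = ∫⁻ p, ENNReal.ofReal (hfun φ p) ∂(μ2.prod μb) := by
    rw [lintegral_prod _ hm.ennreal_ofReal.aemeasurable]
    rfl
  have e2 : ∫⁻ O2, ∫⁻ Ob, ENNReal.ofReal (-(Rs (blk O2).charpoly (blk Ob).charpoly *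
      φ ((blk O2).charpoly * (blk Ob).charpoly))) ∂μb ∂μ2
      = ∫⁻ p, ENNReal.ofReal (-hfun φ p) ∂(μ2.prod μb) := by
    have hmn : Measurable (fun p => -hfun (n := n) (κ := κ) φ p) := hm.neg
    rw [lintegral_prod _ hmn.ennreal_ofReal.aemeasurable]
    rfl
  have e3 : ∫ O2, ∫ Ob, Rs (blk O2).charpoly (blk Ob).charpoly *
      φ ((blk O2).charpoly * (blk Ob).charpoly) ∂μb ∂μ2 = ∫ p, hfun φ p ∂(μ2.prod μb) := by
    rw [integral_prod _ hi]
    rfl
  rw [e1, e2, e3]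
  refine ⟨?_, ?_, integral_eq_lintegral_pos_part_sub_lintegral_neg_part hi⟩
  · exact ne_of_lt hi.lintegral_lt_top
  · exact ne_of_lt hi.neg.lintegral_lt_top

theorem rec (hRCA : T_RCA) (hKN : T_KN) (hSC : T_SC) (hAED : T_AED) (hT : T_TST) (hM : T_MSP)
    (hFR : T_FRK) : T_REC := by
  intro n κ _ _ _ μN _ _ μ2 _ _ μb _ _
  have hC0 := psi_total hFR (Fin 2 ⊕ Fin (2 * n)) κ
  have hk := fun {φ : ℝ[X] → ℝ} (hφ : Test φ) =>
    key (n := n) (κ := κ) hRCA hKN hSC hAED hT hM μN μ2 μb hφ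
  set C0 := ∫⁻ Y : Matrix ((Fin 2 ⊕ Fin (2 * n)) ⊕ κ) (Fin 2 ⊕ Fin (2 * n)) ℝ,
            psi (Fin 2 ⊕ Fin (2 * n)) κ (Yᵀ * Y) * wt Y with hC0d
  set cp := Cp (Fin (2 * n)) κ (psi (Fin 2 ⊕ Fin (2 * n)) κ) with hcp
  have hC0p : 0 < C0 := pos_iff_ne_zero.2 hC0.1
  have hC0t : C0 < ∞ := lt_top_iff_ne_top.2 hC0.2
  -- the case `φ = 1`
  have h1 := hk test_one'
  simp only [ENNReal.ofReal_one, lintegral_const, measure_univ, mul_one, one_mul] at h1
  set J := (∫⁻ O2, ∫⁻ Ob, Fp (fun _ => 1) (blk O2).charpoly (blk Ob).charpoly *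
        ENNReal.ofReal |Rs (blk O2).charpoly (blk Ob).charpoly| ∂μb ∂μ2) with hJ
  have hpos : 0 < J * cp := by
    rw [h1.1]
    refine lt_of_lt_of_le ?_ le_self_add
    exact ENNReal.mul_pos (by simp) hC0p.ne'
  have hfin : J * cp < ∞ := by
    refine lt_of_le_of_lt h1.2 ?_
    exact ENNReal.mul_lt_top (ENNReal.natCast_lt_top _) hC0t
  have hJ0 : J ≠ 0 := fun h => by simp [h] at hpos
  have hcp0 : cp ≠ 0 := fun h => by simp [h] at hpos
  have hcpt : cp ≠ ∞ := fun h => by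
    rw [h, ENNReal.mul_top hJ0] at hfin
    exact lt_irrefl _ hfin
  have hcpr : 0 < cp.toReal := ENNReal.toReal_pos hcp0 hcpt
  have hC0r : 0 < C0.toReal := ENNReal.toReal_pos hC0p.ne' hC0t.ne
  have hn1 : (0 : ℝ) < (n : ℝ) + 1 := by positivity
  refine ⟨cp.toReal / ((n + 1) * C0.toReal), by positivity, ?_⟩
  -- nonnegative test functions
  have hnn : ∀ φ : ℝ[X] → ℝ, Test φ → (∀ χ, 0 ≤ φ χ) →
      ∫ O, φ (blk O).charpoly ∂μN = cp.toReal / ((n + 1) * C0.toReal) *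
        ∫ O2, ∫ Ob, Rs (blk O2).charpoly (blk Ob).charpoly *
          φ ((blk O2).charpoly * (blk Ob).charpoly) ∂μb ∂μ2 := by
    intro φ hφ h0
    obtain ⟨hp, hm, hd⟩ := dbl (n := n) (κ := κ) hT hφ h0 μ2 μb
    rw [hd]
    have h2 := (hk hφ).1
    set Jp := (∫⁻ O2, ∫⁻ Ob, Fp φ (blk O2).charpoly (blk Ob).charpoly *
        ENNReal.ofReal |Rs (blk O2).charpoly (blk Ob).charpoly| ∂μb ∂μ2) with hJp
    set Jm := (∫⁻ O2, ∫⁻ Ob, Fm φ (blk O2).charpoly (blk Ob).charpoly *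
        ENNReal.ofReal |Rs (blk O2).charpoly (blk Ob).charpoly| ∂μb ∂μ2) with hJm
    have hi := Test.integrable hφ μN
    have hE : ∫ O, φ (blk O).charpoly ∂μN =
        (∫⁻ O, ENNReal.ofReal (φ (blk O).charpoly) ∂μN).toReal :=
      integral_eq_lintegral_of_nonneg_ae (Filter.Eventually.of_forall fun O => h0 _)
        hi.aestronglyMeasurable
    have hEt : (∫⁻ O, ENNReal.ofReal (φ (blk O).charpoly) ∂μN) ≠ ∞ :=
      ne_of_lt hi.lintegral_lt_top
    set E := ∫⁻ O, ENNReal.ofReal (φ (blk O).charpoly) ∂μN with hEd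
    rw [hE]
    have h3 := congrArg ENNReal.toReal h2
    rw [ENNReal.toReal_add (ENNReal.mul_ne_top (ENNReal.natCast_ne_top _)
      (ENNReal.mul_ne_top hEt hC0t.ne)) (ENNReal.mul_ne_top hm hcpt)] at h3
    simp only [ENNReal.toReal_mul, ENNReal.toReal_natCast] at h3
    push_cast at h3
    field_simp
    linarith
  -- general test functions
  intro φ hφ
  have hp := Test.pos hφ
  have hq := Test.pos (Test.neg hφ)
  have e1 := hnn _ hp (fun χ => le_max_right _ _)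
  have e2 := hnn _ hq (fun χ => le_max_right _ _)
  have hdiff : ∀ χ, φ χ = max (φ χ) 0 - max (-φ χ) 0 := by
    intro χ
    rcases le_total 0 (φ χ) with h | h
    · rw [max_eq_left h, max_eq_right (by linarith)]
      ring
    · rw [max_eq_right h, max_eq_left (by linarith)]
      ring
  have i1 : ∫ O, φ (blk O).charpoly ∂μN = ∫ O, max (φ (blk O).charpoly) 0 ∂μN -
      ∫ O, max (-φ (blk O).charpoly) 0 ∂μN := by
    rw [← integral_sub (Test.integrable hp μN) (Test.integrable hq μN)]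
    congr 1
    funext O
    exact hdiff _
  have i2 : ∫ O2, ∫ Ob, Rs (blk O2).charpoly (blk Ob).charpoly *
          φ ((blk O2).charpoly * (blk Ob).charpoly) ∂μb ∂μ2
      = ∫ O2, ∫ Ob, Rs (blk O2).charpoly (blk Ob).charpoly *
          max (φ ((blk O2).charpoly * (blk Ob).charpoly)) 0 ∂μb ∂μ2 -
        ∫ O2, ∫ Ob, Rs (blk O2).charpoly (blk Ob).charpoly *
          max (-φ ((blk O2).charpoly * (blk Ob).charpoly)) 0 ∂μb ∂μ2 := by
    have k1 := integral_prod _ (integrable_hfun (n := n) (κ := κ) hT hφ μ2 μb)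
    have k2 := integral_prod _ (integrable_hfun (n := n) (κ := κ) hT hp μ2 μb)
    have k3 := integral_prod _ (integrable_hfun (n := n) (κ := κ) hT hq μ2 μb)
    have k4 : ∫ p, hfun φ p ∂(μ2.prod μb) =
        ∫ p, hfun (n := n) (κ := κ) (fun χ => max (φ χ) 0) p ∂(μ2.prod μb) -
          ∫ p, hfun (n := n) (κ := κ) (fun χ => max (-φ χ) 0) p ∂(μ2.prod μb) := by
      rw [← integral_sub (integrable_hfun hT hp μ2 μb) (integrable_hfun hT hq μ2 μb)]
      congr 1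
      funext p
      unfold hfun
      rw [← mul_sub, ← hdiff]
    rw [k1, k2, k3] at k4
    exact k4
  rw [i1, i2, e1, e2]
  ring

end main

end Pool.Agent.H84.TO.Rec
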