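import Pool.Agent.H84.TO.TargetsH

open MeasureTheory Matrix Polynomial Filter Topology
open scoped ENNReal

namespace Pool.Agent.H84.TO

set_option linter.unusedSectionVars false

section alg
variable {a b κ : Type} [Fintype a] [DecidableEq a] [Fintype b] [DecidableEq b]
  [Fintype κ] [DecidableEq κ]

theorem uu_mul_neg (X : Matrix b a ℝ) : uu X * uu (-X) = 1 := by
  unfold uu
  rw [fromBlocks_multiply]
  simp

theorem uu_neg_mul (X : Matrix b a ℝ) : uu (-X) * uu X = 1 := by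
  unfold uu
  rw [fromBlocks_multiply]
  simp

theorem vv_mul_neg (V : Matrix a b ℝ) : vv V * vv (-V) = 1 := by
  unfold vv
  rw [fromBlocks_multiply]
  simp

theorem vv_neg_mul (V : Matrix a b ℝ) : vv (-V) * vv V = 1 := by
  unfold vv
  rw [fromBlocks_multiply]
  simp

theorem det_uu (X : Matrix b a ℝ) : (uu X).det = 1 := by
  unfold uu
  rw [det_fromBlocks_zero₁₂]
  simp

theorem uu_inv (X : Matrix b a ℝ) : (uu X)⁻¹ = uu (-X) :=
  Matrix.inv_eq_right_inv (uu_mul_neg X)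

theorem vv_inv (V : Matrix a b ℝ) : (vv V)⁻¹ = vv (-V) :=
  Matrix.inv_eq_right_inv (vv_mul_neg V)

theorem uv_inv (X : Matrix b a ℝ) (V : Matrix a b ℝ) :
    (uu X * vv V)⁻¹ = vv (-V) * uu (-X) := by
  rw [Matrix.mul_inv_rev, uu_inv, vv_inv]

theorem uu_zero : uu (0 : Matrix b a ℝ) = 1 := by
  unfold uu
  exact fromBlocks_one

theorem Xof_asm (Z1 : Matrix (a ⊕ κ) a ℝ) (T : Matrix (a ⊕ κ) b ℝ) (X : Matrix b a ℝ)
    (A : Matrix b b ℝ) : Xof (asm Z1 T X A) = X := by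
  ext i j
  simp [Xof, asm, top, toBlocks₂₁]

theorem Zof_asm (Z1 : Matrix (a ⊕ κ) a ℝ) (T : Matrix (a ⊕ κ) b ℝ) (X : Matrix b a ℝ)
    (A : Matrix b b ℝ) : Zof (asm Z1 T X A) = top Z1 := by
  ext i j
  simp [Zof, asm, top, toBlocks₁₁]

theorem Aof_asm (Z1 : Matrix (a ⊕ κ) a ℝ) (T : Matrix (a ⊕ κ) b ℝ) (X : Matrix b a ℝ)
    (A : Matrix b b ℝ) : Aof (asm Z1 T X A) = A := by
  ext i j
  simp [Aof, asm, top, toBlocks₂₂]

theorem kill_asm (Z1 : Matrix (a ⊕ κ) a ℝ) (T : Matrix (a ⊕ κ) b ℝ) (X : Matrix b a ℝ)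
    (A : Matrix b b ℝ) : kill (asm Z1 T X A) = asm Z1 T 0 A := by
  unfold kill
  rw [Zof_asm, Aof_asm]
  ext i j
  rcases i with i | i
  · rcases i with i | i <;> rcases j with j | j <;> simp [asm, top, toBlocks₁₂]
  · rcases j with j | j <;> simp [asm, bot]

theorem Phi_asm (Z1 : Matrix (a ⊕ κ) a ℝ) (T : Matrix (a ⊕ κ) b ℝ) (X : Matrix b a ℝ)
    (A : Matrix b b ℝ) :
    Phi (asm Z1 T X A) = ext κ (uu X) * asm Z1 T 0 A * (uu X)⁻¹ := by
  unfold Phi
  rw [Xof_asm, kill_asm, uu_inv]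

theorem continuous_Pasm : Continuous (fun p : Matrix b a ℝ × Matrix a b ℝ × Matrix a a ℝ ×
    Matrix b b ℝ => Pasm p.1 p.2.1 p.2.2.1 p.2.2.2) := by
  unfold Pasm
  simp_rw [uv_inv]
  unfold uu vv
  fun_prop

theorem Pasm_conj (X : Matrix b a ℝ) (V : Matrix a b ℝ) (P1 : Matrix a a ℝ) (P2 : Matrix b b ℝ) :
    ((uu X)⁻¹)ᵀ * Pasm 0 V P1 P2 * (uu X)⁻¹ = Pasm X V P1 P2 := by
  unfold Pasm
  rw [uv_inv, uv_inv, neg_zero, uu_zero, Matrix.mul_one, uu_inv]
  simp only [transpose_mul, Matrix.mul_assoc]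

theorem continuous_asm : Continuous (fun p : Matrix (a ⊕ κ) a ℝ × Matrix (a ⊕ κ) b ℝ ×
    Matrix b a ℝ × Matrix b b ℝ => asm p.1 p.2.1 p.2.2.1 p.2.2.2) := by
  unfold asm
  apply continuous_matrix
  intro i j
  rcases i with i | i
  · rcases i with i | i <;> rcases j with j | j <;>
      simp only [fromRows_apply_inl, fromBlocks_apply₁₁, fromBlocks_apply₁₂,
        fromBlocks_apply₂₁, fromBlocks_apply₂₂, toRows₁_apply] <;> fun_prop
  · rcases j with j | j <;>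
      simp only [fromRows_apply_inr, fromCols_apply_inl, fromCols_apply_inr,
        toRows₂_apply] <;> fun_prop

theorem continuous_Phi : Continuous (Phi : Matrix ((a ⊕ b) ⊕ κ) (a ⊕ b) ℝ →
    Matrix ((a ⊕ b) ⊕ κ) (a ⊕ b) ℝ) := by
  have h1 : Continuous (kill : Matrix ((a ⊕ b) ⊕ κ) (a ⊕ b) ℝ →
      Matrix ((a ⊕ b) ⊕ κ) (a ⊕ b) ℝ) := by
    apply continuous_matrix
    intro i j
    rcases i with i | i
    · rcases i with i | i <;> rcases j with j | j <;>
        simp only [kill, Zof, Aof, top, bot, fromRows_apply_inl, fromBlocks_apply₁₁,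
          fromBlocks_apply₁₂, fromBlocks_apply₂₁, fromBlocks_apply₂₂, toRows₁_apply,
          toBlocks₁₁, toBlocks₁₂, toBlocks₂₂, of_apply, Matrix.zero_apply] <;> fun_prop
    · simp only [kill, bot, fromRows_apply_inr, toRows₂_apply]
      fun_prop
  have h2 : Continuous (Xof : Matrix ((a ⊕ b) ⊕ κ) (a ⊕ b) ℝ → Matrix b a ℝ) := by
    apply continuous_matrix
    intro i j
    simp only [Xof, top, toBlocks₂₁, toRows₁_apply, of_apply]
    fun_prop
  have h3 : Continuous (uu : Matrix b a ℝ → Matrix (a ⊕ b) (a ⊕ b) ℝ) := by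
    unfold uu
    fun_prop
  have h4 : Continuous (ext κ : Matrix (a ⊕ b) (a ⊕ b) ℝ → _) := by
    unfold ext
    fun_prop
  unfold Phi
  exact ((h4.comp (h3.comp h2)).matrix_mul h1).matrix_mul (h3.comp h2.neg)

end alg

section meas

theorem swap4 {α β γ δ : Type*} [MeasurableSpace α] [MeasurableSpace β] [MeasurableSpace γ]
    [MeasurableSpace δ] (μa : Measure α) (μb : Measure β) (μc : Measure γ) (μd : Measure δ)
    [SFinite μa] [SFinite μb] [SFinite μc] [SFinite μd] (H : α → β → γ → δ → ℝ≥0∞)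
    (hH : Measurable (fun p : α × β × γ × δ => H p.1 p.2.1 p.2.2.1 p.2.2.2)) :
    ∫⁻ x, ∫⁻ y, ∫⁻ z, ∫⁻ w, H x y z w ∂μd ∂μc ∂μb ∂μa
      = ∫⁻ z, ∫⁻ w, ∫⁻ x, ∫⁻ y, H x y z w ∂μb ∂μa ∂μd ∂μc := by
  have h1 : ∀ x y, ∫⁻ z, ∫⁻ w, H x y z w ∂μd ∂μc
      = ∫⁻ q, H x y q.1 q.2 ∂(μc.prod μd) := by
    intro x y
    rw [lintegral_prod]
    apply Measurable.aemeasurable
    exact hH.comp (measurable_const.prodMk (measurable_const.prodMk
      (measurable_fst.prodMk measurable_snd)))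
  simp_rw [h1]
  have h2 : ∫⁻ x, ∫⁻ y, ∫⁻ q, H x y q.1 q.2 ∂(μc.prod μd) ∂μb ∂μa
      = ∫⁻ p, ∫⁻ q, H p.1 p.2 q.1 q.2 ∂(μc.prod μd) ∂(μa.prod μb) := by
    rw [lintegral_prod]
    apply Measurable.aemeasurable
    apply Measurable.lintegral_prod_right' (f := fun r : (α × β) × (γ × δ) =>
      H r.1.1 r.1.2 r.2.1 r.2.2)
    exact hH.comp ((measurable_fst.comp measurable_fst).prodMk
      ((measurable_snd.comp measurable_fst).prodMk
        ((measurable_fst.comp measurable_snd).prodMk (measurable_snd.comp measurable_snd))))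
  rw [h2, lintegral_lintegral_swap]
  · rw [lintegral_prod]
    · congr 1
      funext z
      congr 1
      funext w
      rw [lintegral_prod]
      apply Measurable.aemeasurable
      exact hH.comp (measurable_fst.prodMk (measurable_snd.prodMk
        (measurable_const.prodMk measurable_const)))
    · apply Measurable.aemeasurable
      apply Measurable.lintegral_prod_right' (f := fun r : (γ × δ) × (α × β) =>
        H r.2.1 r.2.2 r.1.1 r.1.2)
      exact hH.comp ((measurable_fst.comp measurable_snd).prodMk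
        ((measurable_snd.comp measurable_snd).prodMk
          ((measurable_fst.comp measurable_fst).prodMk (measurable_snd.comp measurable_fst))))
  · apply Measurable.aemeasurable
    exact hH.comp ((measurable_fst.comp measurable_fst).prodMk
      ((measurable_snd.comp measurable_fst).prodMk
        ((measurable_fst.comp measurable_snd).prodMk (measurable_snd.comp measurable_snd))))

theorem swap3 {α β γ : Type*} [MeasurableSpace α] [MeasurableSpace β] [MeasurableSpace γ]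
    (μa : Measure α) (μb : Measure β) (μc : Measure γ)
    [SFinite μa] [SFinite μb] [SFinite μc] (H : α → β → γ → ℝ≥0∞)
    (hH : Measurable (fun p : α × β × γ => H p.1 p.2.1 p.2.2)) :
    ∫⁻ x, ∫⁻ y, ∫⁻ z, H x y z ∂μc ∂μb ∂μa
      = ∫⁻ z, ∫⁻ y, ∫⁻ x, H x y z ∂μa ∂μb ∂μc := by
  have h1 : ∫⁻ x, ∫⁻ y, ∫⁻ z, H x y z ∂μc ∂μb ∂μa
      = ∫⁻ x, ∫⁻ z, ∫⁻ y, H x y z ∂μb ∂μc ∂μa := by
    congr 1
    funext x
    apply lintegral_lintegral_swap
    apply Measurable.aemeasurable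
    exact hH.comp (measurable_const.prodMk (measurable_fst.prodMk measurable_snd))
  rw [h1, lintegral_lintegral_swap]
  · congr 1
    funext z
    apply lintegral_lintegral_swap
    apply Measurable.aemeasurable
    exact hH.comp (measurable_fst.prodMk (measurable_snd.prodMk measurable_const))
  · apply Measurable.aemeasurable
    apply Measurable.lintegral_prod_right' (f := fun r : (α × γ) × β => H r.1.1 r.2 r.1.2)
    exact hH.comp ((measurable_fst.comp measurable_fst).prodMk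
      (measurable_snd.prodMk (measurable_snd.comp measurable_fst)))

end meas

section main
variable {a b κ : Type} [Fintype a] [DecidableEq a] [Fintype b] [DecidableEq b]
  [Fintype κ] [DecidableEq κ]

/-- the integrand after the substitution -/
noncomputable def gi (F : Matrix a a ℝ → Matrix b b ℝ → ℝ≥0∞)
    (ψ : Matrix (a ⊕ b) (a ⊕ b) ℝ → ℝ≥0∞) (X : Matrix b a ℝ) (V : Matrix a b ℝ)
    (Z1 : Matrix (a ⊕ κ) a ℝ) (Y2 : Matrix (b ⊕ κ) b ℝ) : ℝ≥0∞ :=
  F (top Z1) (top Y2) * ψ (Pasm X V (solP Z1) (solP Y2)) *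
    ENNReal.ofReal (den Z1) * ENNReal.ofReal (den Y2)

theorem measurable_top : Measurable (top : Matrix (a ⊕ κ) a ℝ → Matrix a a ℝ) := by
  have h : Continuous (top : Matrix (a ⊕ κ) a ℝ → Matrix a a ℝ) := by
    apply continuous_matrix
    intro i j
    simp only [top, toRows₁_apply]
    fun_prop
  exact h.measurable

theorem continuous_fromRows' : Continuous (fun p : Matrix b b ℝ × Matrix κ b ℝ =>
    fromRows p.1 p.2) := by
  apply continuous_matrix
  intro i j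
  rcases i with i | i
  · simp only [fromRows_apply_inl]; fun_prop
  · simp only [fromRows_apply_inr]; fun_prop

theorem measurable_gi (hM : T_MSP) (F : Matrix a a ℝ → Matrix b b ℝ → ℝ≥0∞)
    (ψ : Matrix (a ⊕ b) (a ⊕ b) ℝ → ℝ≥0∞) (hF : Measurable (Function.uncurry F))
    (hψ : Measurable ψ) : Measurable (fun p : Matrix b a ℝ × Matrix a b ℝ ×
      Matrix (a ⊕ κ) a ℝ × Matrix (b ⊕ κ) b ℝ => gi F ψ p.1 p.2.1 p.2.2.1 p.2.2.2) := by
  obtain ⟨-, -, hs1, -, hd1, -⟩ := hM a κ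
  obtain ⟨-, -, hs2, -, hd2, -⟩ := hM b κ
  unfold gi
  have m1 : Measurable (fun p : Matrix b a ℝ × Matrix a b ℝ ×
      Matrix (a ⊕ κ) a ℝ × Matrix (b ⊕ κ) b ℝ => p.1) := measurable_fst
  have m2 : Measurable (fun p : Matrix b a ℝ × Matrix a b ℝ ×
      Matrix (a ⊕ κ) a ℝ × Matrix (b ⊕ κ) b ℝ => p.2.1) := measurable_fst.comp measurable_snd
  have m3 : Measurable (fun p : Matrix b a ℝ × Matrix a b ℝ ×
      Matrix (a ⊕ κ) a ℝ × Matrix (b ⊕ κ) b ℝ => p.2.2.1) :=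
    measurable_fst.comp (measurable_snd.comp measurable_snd)
  have m4 : Measurable (fun p : Matrix b a ℝ × Matrix a b ℝ ×
      Matrix (a ⊕ κ) a ℝ × Matrix (b ⊕ κ) b ℝ => p.2.2.2) :=
    measurable_snd.comp (measurable_snd.comp measurable_snd)
  have t3 : Measurable (fun p : Matrix b a ℝ × Matrix a b ℝ ×
      Matrix (a ⊕ κ) a ℝ × Matrix (b ⊕ κ) b ℝ => top p.2.2.1) := measurable_top.comp m3
  have t4 : Measurable (fun p : Matrix b a ℝ × Matrix a b ℝ ×
      Matrix (a ⊕ κ) a ℝ × Matrix (b ⊕ κ) b ℝ => top p.2.2.2) := measurable_top.comp m4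
  have e1 : Measurable (fun p : Matrix b a ℝ × Matrix a b ℝ ×
      Matrix (a ⊕ κ) a ℝ × Matrix (b ⊕ κ) b ℝ => F (top p.2.2.1) (top p.2.2.2)) :=
    hF.comp (t3.prodMk t4)
  have s3 : Measurable (fun p : Matrix b a ℝ × Matrix a b ℝ ×
      Matrix (a ⊕ κ) a ℝ × Matrix (b ⊕ κ) b ℝ => solP p.2.2.1) := hs1.comp m3
  have s4 : Measurable (fun p : Matrix b a ℝ × Matrix a b ℝ ×
      Matrix (a ⊕ κ) a ℝ × Matrix (b ⊕ κ) b ℝ => solP p.2.2.2) := hs2.comp m4
  have h2 : Measurable (fun p : Matrix b a ℝ × Matrix a b ℝ ×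
      Matrix (a ⊕ κ) a ℝ × Matrix (b ⊕ κ) b ℝ => (p.1, p.2.1, solP p.2.2.1, solP p.2.2.2)) :=
    m1.prodMk (m2.prodMk (s3.prodMk s4))
  have h1 : Measurable (fun p : Matrix b a ℝ × Matrix a b ℝ × Matrix a a ℝ ×
    Matrix b b ℝ => Pasm p.1 p.2.1 p.2.2.1 p.2.2.2) := continuous_Pasm.measurable
  have h3 : Measurable (fun p : Matrix b a ℝ × Matrix a b ℝ ×
      Matrix (a ⊕ κ) a ℝ × Matrix (b ⊕ κ) b ℝ =>
      Pasm p.1 p.2.1 (solP p.2.2.1) (solP p.2.2.2)) := by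
    have h4 := Measurable.comp h1 h2
    simp only [Function.comp_def] at h4
    exact h4
  have e2 : Measurable (fun p : Matrix b a ℝ × Matrix a b ℝ ×
      Matrix (a ⊕ κ) a ℝ × Matrix (b ⊕ κ) b ℝ =>
      ψ (Pasm p.1 p.2.1 (solP p.2.2.1) (solP p.2.2.2))) := Measurable.comp hψ h3
  have e3 : Measurable (fun p : Matrix b a ℝ × Matrix a b ℝ ×
      Matrix (a ⊕ κ) a ℝ × Matrix (b ⊕ κ) b ℝ => ENNReal.ofReal (den p.2.2.1)) :=
    (hd1.comp m3).ennreal_ofReal
  have e4 : Measurable (fun p : Matrix b a ℝ × Matrix a b ℝ ×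
      Matrix (a ⊕ κ) a ℝ × Matrix (b ⊕ κ) b ℝ => ENNReal.ofReal (den p.2.2.2)) :=
    (hd2.comp m4).ennreal_ofReal
  exact ((e1.mul e2).mul e3).mul e4

theorem top_fromRows (A : Matrix b b ℝ) (C : Matrix κ b ℝ) : top (fromRows A C) = A := by
  ext i j
  simp [top]

theorem bot_fromRows (A : Matrix b b ℝ) (C : Matrix κ b ℝ) : bot (fromRows A C) = C := by
  ext i j
  simp [bot]

/-- the integrand in the block coordinates -/
noncomputable def fY (F : Matrix a a ℝ → Matrix b b ℝ → ℝ≥0∞)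
    (ψ : Matrix (a ⊕ b) (a ⊕ b) ℝ → ℝ≥0∞) : Matrix ((a ⊕ b) ⊕ κ) (a ⊕ b) ℝ → ℝ≥0∞ :=
  Set.indicator {Y : Matrix ((a ⊕ b) ⊕ κ) (a ⊕ b) ℝ | good (Phi Y)}
    (fun Y => F (Zof Y) (Aof Y) * ψ (solP (Phi Y)) * ENNReal.ofReal (den (Phi Y)))

theorem measurable_fY (hM : T_MSP) (F : Matrix a a ℝ → Matrix b b ℝ → ℝ≥0∞)
    (ψ : Matrix (a ⊕ b) (a ⊕ b) ℝ → ℝ≥0∞) (hF : Measurable (Function.uncurry F))
    (hψ : Measurable ψ) : Measurable (fY (κ := κ) F ψ) := by
  obtain ⟨-, -, hs1, hg, hd1, -⟩ := hM (a ⊕ b) κ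
  have hPhi : Measurable (Phi : Matrix ((a ⊕ b) ⊕ κ) (a ⊕ b) ℝ →
    Matrix ((a ⊕ b) ⊕ κ) (a ⊕ b) ℝ) := continuous_Phi.measurable
  have hZ : Measurable (Zof : Matrix ((a ⊕ b) ⊕ κ) (a ⊕ b) ℝ → Matrix a a ℝ) := by
    have h : Continuous (Zof : Matrix ((a ⊕ b) ⊕ κ) (a ⊕ b) ℝ → Matrix a a ℝ) := by
      apply continuous_matrix
      intro i j
      simp only [Zof, top, toBlocks₁₁, toRows₁_apply, of_apply]
      fun_prop
    exact h.measurable
  have hA : Measurable (Aof : Matrix ((a ⊕ b) ⊕ κ) (a ⊕ b) ℝ → Matrix b b ℝ) := by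
    have h : Continuous (Aof : Matrix ((a ⊕ b) ⊕ κ) (a ⊕ b) ℝ → Matrix b b ℝ) := by
      apply continuous_matrix
      intro i j
      simp only [Aof, top, toBlocks₂₂, toRows₁_apply, of_apply]
      fun_prop
    exact h.measurable
  unfold fY
  refine Measurable.indicator ?_ (hPhi hg)
  have e1 : Measurable (fun Y : Matrix ((a ⊕ b) ⊕ κ) (a ⊕ b) ℝ => F (Zof Y) (Aof Y)) :=
    hF.comp (hZ.prodMk hA)
  have e2 : Measurable (fun Y : Matrix ((a ⊕ b) ⊕ κ) (a ⊕ b) ℝ => ψ (solP (Phi Y))) :=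
    hψ.comp (hs1.comp hPhi)
  have e3 : Measurable (fun Y : Matrix ((a ⊕ b) ⊕ κ) (a ⊕ b) ℝ =>
    ENNReal.ofReal (den (Phi Y))) := (hd1.comp hPhi).ennreal_ofReal
  exact (e1.mul e2).mul e3

/-- the inner integral over `T` -/
theorem inner_T (hB : T_STB) (hC : T_CMP) (hF2 : T_F2) (hN : T_CON) (hM : T_MSP)
    (F : Matrix a a ℝ → Matrix b b ℝ → ℝ≥0∞)
    (ψ : Matrix (a ⊕ b) (a ⊕ b) ℝ → ℝ≥0∞) (hF : Measurable (Function.uncurry F))
    (hψ : Measurable ψ) (X : Matrix b a ℝ) (Z1 : Matrix (a ⊕ κ) a ℝ) (A : Matrix b b ℝ) :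
    ∫⁻ T : Matrix (a ⊕ κ) b ℝ, fY F ψ (asm Z1 T X A)
      = Set.indicator {Z : Matrix (a ⊕ κ) a ℝ | good Z ∧ Function.Injective (sylv (top Z) A)}
        (fun Z => ∫⁻ V : Matrix a b ℝ, ∫⁻ C : Matrix κ b ℝ,
          Set.indicator {Y2 : Matrix (b ⊕ κ) b ℝ | good Y2} (gi F ψ X V Z) (fromRows A C)) Z1 := by
  have hdu : IsUnit (uu X).det := by rw [det_uu]; exact isUnit_one
  have hcon : ∀ T : Matrix (a ⊕ κ) b ℝ, (good (Phi (asm Z1 T X A)) ↔ good (asm Z1 T 0 A)) ∧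
      solP (Phi (asm Z1 T X A)) = ((uu X)⁻¹)ᵀ * solP (asm Z1 T 0 A) * (uu X)⁻¹ ∧
      den (Phi (asm Z1 T X A)) = den (asm Z1 T 0 A) := by
    intro T
    rw [Phi_asm]
    obtain ⟨-, -, h1, h2, h3⟩ := hN (a ⊕ b) κ (uu X) (asm Z1 T 0 A) hdu
    exact ⟨h2, h1, h3 (det_uu X)⟩
  by_cases hZ : good Z1 ∧ Function.Injective (sylv (top Z1) A)
  swap
  · rw [Set.indicator_of_notMem (show Z1 ∉ {Z : Matrix (a ⊕ κ) a ℝ | good Z ∧
      Function.Injective (sylv (top Z) A)} from hZ)]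
    rw [lintegral_eq_zero_of_ae_eq_zero]
    refine Filter.Eventually.of_forall fun T => ?_
    change fY F ψ _ = 0
    unfold fY
    rw [Set.indicator_of_notMem]
    intro hT
    exact hZ ((hB a b κ).2 Z1 T A ((hcon T).1.1 hT))
  rw [Set.indicator_of_mem (show Z1 ∈ {Z : Matrix (a ⊕ κ) a ℝ | good Z ∧
      Function.Injective (sylv (top Z) A)} from hZ)]
  obtain ⟨hZ1, hZA⟩ := hZ
  obtain ⟨K, hK1, hK2⟩ := hC a κ Z1 hZ1
  have hmeas : Measurable (fun T : Matrix (a ⊕ κ) b ℝ => fY F ψ (asm Z1 T X A)) := by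
    have h1 : Continuous (fun T : Matrix (a ⊕ κ) b ℝ => asm Z1 T X A) :=
      continuous_asm.comp (continuous_const.prodMk (continuous_id.prodMk
        (continuous_const.prodMk continuous_const)))
    exact (measurable_fY hM F ψ hF hψ).comp h1.measurable
  rw [hF2 a b κ Z1 A K hZ1 hK1 hK2 hZA _ hmeas, ← lintegral_const_mul' _ _ ENNReal.ofReal_ne_top]
  congr 1
  funext V
  rw [← lintegral_const_mul' _ _ ENNReal.ofReal_ne_top]
  congr 1
  funext C
  have h4 := (hB a b κ).1 Z1 (fromRows A C) V K hZ1 hK1 hK2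
  rw [top_fromRows, bot_fromRows] at h4
  obtain ⟨h5, h6⟩ := h4 hZA
  set T : Matrix (a ⊕ κ) b ℝ := K * C + fromRows (V * A - top Z1 * V) (-(bot Z1 * V)) with hT
  obtain ⟨h7, h8, h9⟩ := hcon T
  unfold fY
  by_cases hg : good (fromRows A C : Matrix (b ⊕ κ) b ℝ)
  · have h10 : asm Z1 T X A ∈ {Y : Matrix ((a ⊕ b) ⊕ κ) (a ⊕ b) ℝ | good (Phi Y)} :=
      h7.2 (h5.2 hg)
    rw [Set.indicator_of_mem h10, Set.indicator_of_mem (show fromRows A C ∈
      {Y2 : Matrix (b ⊕ κ) b ℝ | good Y2} from hg), Zof_asm, Aof_asm, h8, h9]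
    obtain ⟨h11, h12⟩ := h6 hg
    rw [h11, Pasm_conj]
    unfold gi
    rw [top_fromRows]
    have h13 : ENNReal.ofReal |LinearMap.det (sylv (top Z1) A)| *
        ENNReal.ofReal (den (asm Z1 T 0 A)) =
        ENNReal.ofReal (den Z1) * ENNReal.ofReal (den (fromRows A C : Matrix (b ⊕ κ) b ℝ)) := by
      rw [← ENNReal.ofReal_mul (abs_nonneg _), mul_comm |LinearMap.det (sylv (top Z1) A)|, h12]
      rw [ENNReal.ofReal_mul]
      unfold den
      apply mul_nonneg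
      · exact Real.rpow_nonneg hZ1.2.det_pos.le _
      · positivity
    calc _ = F (top Z1) A * ψ (Pasm X V (solP Z1) (solP (fromRows A C))) *
          (ENNReal.ofReal |LinearMap.det (sylv (top Z1) A)| *
          ENNReal.ofReal (den (asm Z1 T 0 A))) := by ring
      _ = _ := by rw [h13]; ring
  · rw [Set.indicator_of_notMem (show fromRows A C ∉
      {Y2 : Matrix (b ⊕ κ) b ℝ | good Y2} from hg), Set.indicator_of_notMem, mul_zero]
    intro h14
    exact hg (h5.1 (h7.1 h14))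

theorem spl (hB : T_STB) (hC : T_CMP) (hF2 : T_F2) (hL : T_BLM) (hNC : T_NCR) (hN : T_CON)
    (hM : T_MSP) : T_SPL := by
  intro a b κ _ _ _ _ _ _ F ψ hF hψ
  have hgood : MeasurableSet {Y : Matrix ((a ⊕ b) ⊕ κ) (a ⊕ b) ℝ | good (Phi Y)} :=
    (continuous_Phi.measurable) (hM (a ⊕ b) κ).2.2.2.1
  rw [← lintegral_indicator hgood]
  change ∫⁻ Y, fY F ψ Y = _
  rw [(hL a b κ).1 _ (measurable_fY hM F ψ hF hψ)]
  have hmH : Measurable (fun p : Matrix (a ⊕ κ) a ℝ × Matrix (a ⊕ κ) b ℝ × Matrix b a ℝ ×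
      Matrix b b ℝ => fY (κ := κ) F ψ (asm p.1 p.2.1 p.2.2.1 p.2.2.2)) :=
    (measurable_fY hM F ψ hF hψ).comp continuous_asm.measurable
  rw [swap4 _ _ _ _ (fun Z1 T X A => fY (κ := κ) F ψ (asm Z1 T X A)) hmH]
  simp_rw [inner_T hB hC hF2 hN hM F ψ hF hψ]
  -- the right hand side
  congr 1
  funext X
  have hg1 : MeasurableSet {Z : Matrix (a ⊕ κ) a ℝ | good Z} := (hM a κ).2.2.2.1
  have hg2 : MeasurableSet {Y2 : Matrix (b ⊕ κ) b ℝ | good Y2} := (hM b κ).2.2.2.1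
  have hmg := measurable_gi (κ := κ) hM F ψ hF hψ
  -- the function on the product
  let H : Matrix a b ℝ → Matrix (a ⊕ κ) a ℝ → Matrix b b ℝ → ℝ≥0∞ := fun V Z A =>
    ∫⁻ C : Matrix κ b ℝ, Set.indicator {Z : Matrix (a ⊕ κ) a ℝ | good Z}
      (fun Z => Set.indicator {Y2 : Matrix (b ⊕ κ) b ℝ | good Y2} (gi F ψ X V Z)
        (fromRows A C)) Z
  have hmH2 : Measurable (fun q : (Matrix a b ℝ × Matrix (a ⊕ κ) a ℝ × Matrix b b ℝ) ×
      Matrix κ b ℝ => Set.indicator {Z : Matrix (a ⊕ κ) a ℝ | good Z}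
      (fun Z => Set.indicator {Y2 : Matrix (b ⊕ κ) b ℝ | good Y2} (gi F ψ X q.1.1 Z)
        (fromRows q.1.2.2 q.2)) q.1.2.1) := by
    have k1 : Measurable (fun q : (Matrix a b ℝ × Matrix (a ⊕ κ) a ℝ × Matrix b b ℝ) ×
      Matrix κ b ℝ => (fromRows q.1.2.2 q.2 : Matrix (b ⊕ κ) b ℝ)) := by
      have h := (continuous_fromRows' (b := b) (κ := κ)).measurable
      exact h.comp ((measurable_snd.comp (measurable_snd.comp measurable_fst)).prodMk
        measurable_snd)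
    have k2 : Measurable (fun q : (Matrix a b ℝ × Matrix (a ⊕ κ) a ℝ × Matrix b b ℝ) ×
      Matrix κ b ℝ => q.1.2.1) := measurable_fst.comp (measurable_snd.comp measurable_fst)
    have k3 : Measurable (fun q : (Matrix a b ℝ × Matrix (a ⊕ κ) a ℝ × Matrix b b ℝ) ×
      Matrix κ b ℝ => q.1.1) := measurable_fst.comp measurable_fst
    have k4 : Measurable (fun q : (Matrix a b ℝ × Matrix (a ⊕ κ) a ℝ × Matrix b b ℝ) ×
      Matrix κ b ℝ => gi F ψ X q.1.1 q.1.2.1 (fromRows q.1.2.2 q.2)) :=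
      hmg.comp (measurable_const.prodMk (k3.prodMk (k2.prodMk k1)))
    have k5 : (fun q : (Matrix a b ℝ × Matrix (a ⊕ κ) a ℝ × Matrix b b ℝ) ×
      Matrix κ b ℝ => Set.indicator {Z : Matrix (a ⊕ κ) a ℝ | good Z}
      (fun Z => Set.indicator {Y2 : Matrix (b ⊕ κ) b ℝ | good Y2} (gi F ψ X q.1.1 Z)
        (fromRows q.1.2.2 q.2)) q.1.2.1) =
        Set.indicator ((fun q : (Matrix a b ℝ × Matrix (a ⊕ κ) a ℝ × Matrix b b ℝ) ×
          Matrix κ b ℝ => q.1.2.1) ⁻¹' {Z : Matrix (a ⊕ κ) a ℝ | good Z})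
          (Set.indicator ((fun q : (Matrix a b ℝ × Matrix (a ⊕ κ) a ℝ × Matrix b b ℝ) ×
            Matrix κ b ℝ => (fromRows q.1.2.2 q.2 : Matrix (b ⊕ κ) b ℝ)) ⁻¹'
              {Y2 : Matrix (b ⊕ κ) b ℝ | good Y2})
            (fun q => gi F ψ X q.1.1 q.1.2.1 (fromRows q.1.2.2 q.2))) := by
      funext q
      by_cases h1 : good q.1.2.1
      · by_cases h2 : good (fromRows q.1.2.2 q.2 : Matrix (b ⊕ κ) b ℝ)
        · simp [Set.indicator, h1, h2]
        · simp [Set.indicator, h1, h2]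
      · simp [Set.indicator, h1]
    rw [k5]
    exact (k4.indicator (k1 hg2)).indicator (k2 hg1)
  have hmH3 : Measurable (fun p : Matrix a b ℝ × Matrix (a ⊕ κ) a ℝ × Matrix b b ℝ =>
      H p.1 p.2.1 p.2.2) := Measurable.lintegral_prod_right' hmH2
  have hR : ∀ V : Matrix a b ℝ, ∫⁻ Z1 in {Z1 : Matrix (a ⊕ κ) a ℝ | good Z1},
      ∫⁻ Y2 in {Y2 : Matrix (b ⊕ κ) b ℝ | good Y2},
            F (top Z1) (top Y2) * ψ (Pasm X V (solP Z1) (solP Y2)) *
              ENNReal.ofReal (den Z1) * ENNReal.ofReal (den Y2)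
      = ∫⁻ Z1, ∫⁻ A, H V Z1 A := by
    intro V
    rw [← lintegral_indicator hg1]
    congr 1
    funext Z
    by_cases hZ : good Z
    · rw [Set.indicator_of_mem (show Z ∈ {Z : Matrix (a ⊕ κ) a ℝ | good Z} from hZ)]
      rw [← lintegral_indicator hg2]
      have hmm : Measurable (Set.indicator {Y2 : Matrix (b ⊕ κ) b ℝ | good Y2}
          (gi F ψ X V Z)) := by
        refine Measurable.indicator ?_ hg2
        exact hmg.comp (measurable_const.prodMk (measurable_const.prodMk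
          (measurable_const.prodMk measurable_id)))
      have h1 := (hL a b κ).2 _ hmm
      refine h1.trans ?_
      congr 1
      funext A
      simp [H, Set.indicator, hZ]
    · rw [Set.indicator_of_notMem (show Z ∉ {Z : Matrix (a ⊕ κ) a ℝ | good Z} from hZ)]
      simp [H, Set.indicator, hZ]
  simp_rw [hR]
  rw [swap3 _ _ _ H hmH3]
  congr 1
  funext A
  -- almost every `Z1` has an invertible cross term
  have hae : ∀ᵐ Z1 : Matrix (a ⊕ κ) a ℝ, Function.Injective (sylv (top Z1) A) := by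
    rw [ae_iff]
    have hms : MeasurableSet {Z : Matrix a a ℝ | ¬ Function.Injective (sylv Z A)} := by
      have h1 := (hNC a b A).1
      have h2 : Measurable (fun Z : Matrix a a ℝ => (Z, A)) :=
        measurable_id.prodMk measurable_const
      exact (h2 h1).compl
    have hms2 : MeasurableSet {Z1 : Matrix (a ⊕ κ) a ℝ |
        ¬ Function.Injective (sylv (top Z1) A)} := measurable_top hms
    rw [← lintegral_indicator_one hms2]
    rw [(hL b a κ).2 _ (measurable_one.indicator hms2)]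
    rw [lintegral_eq_zero_of_ae_eq_zero]
    have h3 := (hNC a b A).2
    filter_upwards [h3] with Z hZ
    change ∫⁻ C : Matrix κ a ℝ, _ = 0
    rw [lintegral_eq_zero_of_ae_eq_zero]
    refine Filter.Eventually.of_forall fun C => ?_
    change Set.indicator _ _ _ = 0
    rw [Set.indicator_of_notMem]
    intro h4
    apply h4
    rw [top_fromRows]
    exact hZ
  apply lintegral_congr_ae
  filter_upwards [hae] with Z hZ
  by_cases hgZ : good Z
  · rw [Set.indicator_of_mem (show Z ∈ {Z : Matrix (a ⊕ κ) a ℝ | good Z ∧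
      Function.Injective (sylv (top Z) A)} from ⟨hgZ, hZ⟩)]
    congr 1
    funext V
    simp [H, Set.indicator, hgZ]
  · rw [Set.indicator_of_notMem (show Z ∉ {Z : Matrix (a ⊕ κ) a ℝ | good Z ∧
      Function.Injective (sylv (top Z) A)} from fun h => hgZ h.1)]
    simp [H, Set.indicator, hgZ]

end main

end Pool.Agent.H84.TO
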