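import Pool.Agent.H84.TO.Fin
import Pool.Agent.H84.TO.EXF
import Pool.Agent.H84.TO.SPL
import Pool.Agent.H84.TO.REC
import Pool.Agent.H38.TO.AED
import Pool.Agent.H32.TO.AEG
import Pool.Agent.H86.TO.ARM
import Pool.Agent.H80.TO.BIN
import Pool.Agent.H86.TO.BLKV
import Pool.Agent.H38.TO.BLM
import Pool.Agent.H38.TO.BLS
import Pool.Agent.H38.TO.CMP
import Pool.Agent.H39.TO.CYC
import Pool.Agent.H38.TO.EXT
import Pool.Agent.H86.TO.F1D
import Pool.Agent.H39.TO.F2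
import Pool.Agent.H32.TO.FIB
import Pool.Agent.H38.TO.FRK
import Pool.Agent.H32.TO.HAR
import Pool.Agent.H86.TO.JDT
import Pool.Agent.H33.TO.ITR
import Pool.Agent.H33.TO.W2A
import Pool.Agent.H56.TO.TST
import Pool.Agent.H86.TO.MSP
import Pool.Agent.H86.TO.CONj
import Pool.Agent.H86.TO.NCR
import Pool.Agent.H86.TO.JAC
import Pool.Agent.H32.TO.KN
import Pool.Agent.H38.TO.LIN
import Pool.Agent.H54.TO.QS
import Pool.Agent.H86.TO.RSD
import Pool.Agent.H86.TO.SQ1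
import Pool.Agent.H86.TO.SQ2
import Pool.Agent.H39.TO.STB
import Pool.Agent.H80.TO.STN
import Pool.Agent.H80.TO.TRF
import Pool.Agent.H33.TO.AVG
import Pool.Agent.H33.TO.DB
import Pool.Agent.H89.TO.MAT
import Pool.Agent.H80.TO.MM2
import Pool.Agent.H54.TO.NRM
import Pool.Agent.H30.TO.POL
import Pool.Agent.H30.TO.RE1
import Pool.Agent.H80.TO.RE2
import Pool.Agent.H80.TO.RE3
import Pool.Agent.H89.TO.RCA
import Pool.Agent.H59.TO.SC
import Pool.Agent.H80.TO.SYM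
import Pool.Agent.H33.TO.TOT
import Pool.Agent.H38.TO.VDM
import Pool.Agent.H80.TO.W2
import Pool.Agent.H30.TO.W2B
import Pool.Agent.H80.TO.ASY
import Pool.Agent.H48.TO.WG
import Pool.Agent.H39.TO.BET
import Pool.Agent.H80.TO.DET
import Pool.Agent.H30.TO.GRM
import Pool.Agent.H39.TO.K1
import Pool.Agent.H39.TO.K2
import Pool.Agent.H39.TO.K3
import Pool.Agent.H80.TO.K4
import Pool.Agent.H47.TO.RAT
import Pool.Agent.H80.TO.SUM
import Pool.Agent.H4.TO.TR1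
import Pool.Agent.H4.TO.TR2
import Pool.Agent.H80.TO.TR3
import Pool.Agent.H47.TO.TR4
import Pool.Agent.H48.TO.UB

/-!
Assembly of the theorem of MP_b4e73a_pr.
-/

open MeasureTheory Matrix Polynomial Filter Topology
open scoped ENNReal

namespace Pool.Agent.H84.TO

/-! ## asymptotics -/

theorem tBET : T_BET := Pool.Agent.H39.TO.bet
theorem tWG : T_WG := Pool.Agent.H48.TO.wg_proof
theorem tBB : T_BB := Pool.Agent.H48.TO.bb_proof
theorem tDET : T_DET := Pool.Agent.H80.TO.det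
theorem tGRM : T_GRM := Pool.Agent.H30.TO.grm tBET
theorem tK1 : T_K1 := Pool.Agent.H39.TO.k1
theorem tK2 : T_K2 := Pool.Agent.H39.TO.k2
theorem tK3 : T_K3 := Pool.Agent.H39.TO.k3 tK1 tK2
theorem tK4 : T_K4 := Pool.Agent.H80.TO.k4 tK2 tK3
theorem tSUM : T_SUM := Pool.Agent.H80.TO.sum tWG
theorem tRAT : T_RAT := Pool.Agent.H47.TO.rat tWG tSUM
theorem tUB : T_UB := Pool.Agent.H48.TO.ub_proof tWG tGRM tBB
theorem tTR1 : T_TR1 := tr1 tSUM tGRM tUB tK3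
theorem tTR2 : T_TR2 := tr2 tTR1 tGRM tUB tK3
theorem tTR3 : T_TR3 := Pool.Agent.H80.TO.tr3 tTR1 tSUM tGRM tUB tK3
theorem tTR4 : T_TR4 := Pool.Agent.H47.TO.tr4 tRAT tGRM tUB tK3
theorem tASY : T_ASY := Pool.Agent.H80.TO.asy tGRM tK3 tK4 tTR2 tTR3 tTR4 tDET

/-! ## Haar measure and blocks -/

theorem tLIN : T_LIN := Pool.Agent.H38.TO.lin
theorem tAED : T_AED := Pool.Agent.H38.TO.aed tLIN
theorem tAEG : T_AEG := Pool.Agent.H32.TO.aeg
theorem tARM : T_ARM := Pool.Agent.H86.TO.arm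
theorem tBIN : T_BIN := Pool.Agent.H80.TO.bin
theorem tHEX : T_HEX := Pool.Agent.H80.TO.hex
theorem tBLKV : T_BLKV := Pool.Agent.H86.TO.blkv
theorem tBLM : T_BLM := Pool.Agent.H38.TO.blm
theorem tBLS : T_BLS := Pool.Agent.H38.TO.bls
theorem tEXT : T_EXT := Pool.Agent.H38.TO.ext
theorem tSQ1 : T_SQ1 := Pool.Agent.H86.TO.sq1
theorem tSQ2 : T_SQ2 := Pool.Agent.H86.TO.sq2
theorem tCMP : T_CMP := Pool.Agent.H38.TO.cmp tEXT tSQ1
theorem tCYC : T_CYC := Pool.Agent.H39.TO.cyc tBIN tHEX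
theorem tF1D : T_F1D := Pool.Agent.H86.TO.f1d
theorem tF2 : T_F2 := Pool.Agent.H39.TO.f2 tBLKV
theorem tFIB : T_FIB := Pool.Agent.H32.TO.fib
theorem tFRK : T_FRK := Pool.Agent.H38.TO.frk tLIN
theorem tHAR : T_HAR := Pool.Agent.H32.TO.har tBIN tEXT tFRK tSQ1 tSQ2 tBLKV
theorem tJDT : T_JDT := Pool.Agent.H86.TO.jdt
theorem tRSD : T_RSD := Pool.Agent.H86.TO.rsd
theorem tSTN : T_STN := Pool.Agent.H80.TO.stn tCYC
theorem tTRF : T_TRF := Pool.Agent.H80.TO.trf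
theorem tQS : T_QS := qs tARM tF1D tRSD tFIB tAED tAEG

/-! ## recursion and moments -/

theorem tMM2 : T_MM2 := Pool.Agent.H80.TO.mm2
theorem tAVG : T_AVG := Pool.Agent.H33.TO.AVG.avg tMM2
theorem tVDM : T_VDM := Pool.Agent.H38.TO.vdm
theorem tDB : T_DB := Pool.Agent.H33.TO.db tVDM
theorem tRE3 : T_RE3 := Pool.Agent.H80.TO.re3 tBET
theorem tMAT : T_MAT := Pool.Agent.H89.TO.mat tRE3
theorem tNRM : T_NRM := nrm
theorem tPOL : T_POL := Pool.Agent.H30.TO.pol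
theorem tRE1 : T_RE1 := Pool.Agent.H30.TO.re1 tBET
theorem tSC : T_SC := Pool.Agent.H59.TO.SC.sc
theorem tSYM : T_SYM := Pool.Agent.H80.TO.sym
theorem tW2B : T_W2B := Pool.Agent.H30.TO.w2b tBET

theorem tMSP : T_MSP := Pool.Agent.H86.TO.msp
theorem tCON : T_CON := Pool.Agent.H86.TO.con
theorem tNCR : T_NCR := Pool.Agent.H86.TO.ncr tLIN
theorem tJAC : T_JAC := Pool.Agent.H86.TO.jac
theorem tSTB : T_STB := Pool.Agent.H39.TO.stb tBLS tCON
theorem tSPL : T_SPL := spl tSTB tCMP tF2 tBLM tNCR tCON tMSP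
theorem tKN : T_KN := Pool.Agent.H32.TO.kn tHAR tFRK tSQ1 tSQ2 tMSP tSTN tJAC

theorem tTST : T_TST := Pool.Agent.H56.TO.tst tRSD
theorem tRCA : T_RCA := Pool.Agent.H89.TO.rca tQS tSPL tKN tMSP tTST
theorem tREC : T_REC := Rec.rec tRCA tKN tSC tAED tTST tMSP tFRK

theorem tW2A : T_W2A := Pool.Agent.H33.TO.W2A.w2a tHAR tPOL tBLM tSQ1 tSQ2 tBLKV
theorem tW2 : T_W2 := Pool.Agent.H80.TO.w2 tW2A tW2B tBET
theorem tRE2 : T_RE2 := Pool.Agent.H80.TO.re2 tW2 tRE1 tSYM tLIN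
theorem tTOT : T_TOT := Pool.Agent.H33.TO.TOT.tot tW2 tW2B tSYM tAVG tBET

theorem tITR : T_ITR := Pool.Agent.H33.TO.ITR.itr tREC tTRF tTST tHEX
theorem tEXF : T_EXF := exf tITR tDB tSYM tTOT tRE2 tMAT tNRM tHEX

end Pool.Agent.H84.TO
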