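import Pool.Agent.H84.TO.Defs

/-!
Targets, group T (asymptotics): `log det (1 - S_n) / log n → -2 θ(ℓ)`.
-/

open MeasureTheory Filter Topology

namespace Pool.Agent.H84.TO

/-- the weights `Γ(2j+ℓ)/(2j)!` -/
def T_WG : Prop := ∀ ℓ : ℕ, 2 ≤ ℓ → ∀ j : ℕ,
  wg ℓ j = ((2 * j + 1).ascFactorial (ℓ - 1) : ℝ) ∧
  ((j : ℝ) + 1) ^ (ℓ - 1) ≤ wg ℓ j ∧ wg ℓ j ≤ (((ℓ : ℝ) + 1) * (j + 1)) ^ (ℓ - 1)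

/-- the kernel identity -/
def T_SUM : Prop := ∀ ℓ : ℕ, 2 ≤ ℓ → ∀ y z : ℝ,
  HasSum (fun j : ℕ => uj ℓ j y * uj ℓ j z) ((kk ℓ (y - z) + kk ℓ (y + z)) / 2)

/-- beta integrals -/
def T_BET : Prop := ∀ (p : ℕ) (q : ℝ), 0 < q →
  (Integrable (fun y : ℝ => Real.tanh (y / 2) ^ (2 * p) * (Real.cosh (y / 2) ^ 2) ^ (-q)) ∧
    ∫ y : ℝ, Real.tanh (y / 2) ^ (2 * p) * (Real.cosh (y / 2) ^ 2) ^ (-q)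
      = 2 * bt (p + 1 / 2) q) ∧
  (IntegrableOn (fun x : ℝ => x ^ (2 * p) * (1 - x ^ 2) ^ (q - 1)) (Set.Ioo (-1) 1) ∧
    ∫ x in Set.Ioo (-1 : ℝ) 1, x ^ (2 * p) * (1 - x ^ 2) ^ (q - 1) = bt (p + 1 / 2) q)

/-- Gram matrix -/
def T_GRM : Prop := ∀ ℓ : ℕ, 2 ≤ ℓ →
  (∀ j k : ℕ, Integrable (fun y => uj ℓ j y * uj ℓ k y) ∧
    ∫ y, uj ℓ j y * uj ℓ k y = kap ℓ * Real.sqrt (wg ℓ j * wg ℓ k) * bt (j + k + 1 / 2) ℓ) ∧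
  (∀ j : ℕ, Continuous (uj ℓ j) ∧ Integrable (uj ℓ j) ∧
    ∫ y, uj ℓ j y = Real.sqrt (kap ℓ * wg ℓ j / 2) * (2 * bt (j + 1 / 2) (ℓ / 2))) ∧
  (∀ n : ℕ, (SS ℓ n).PosSemidef) ∧ ∀ (n : ℕ) (j k : Fin n), 0 ≤ SS ℓ n j k

/-- decay of the beta function -/
def T_BB : Prop := ∀ ℓ : ℕ, 1 ≤ ℓ → ∃ C : ℝ, ∀ j : ℕ,
  bt (j + 1 / 2) (ℓ / 2) ≤ C * ((j : ℝ) + 1) ^ (-(ℓ : ℝ) / 2)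

/-- bounds for `u_j` -/
def T_UB : Prop := ∀ ℓ : ℕ, 2 ≤ ℓ → ∃ C : ℝ, 0 < C ∧
  (∀ j : ℕ, ∫ y, uj ℓ j y ≤ C / Real.sqrt (j + 1)) ∧
  (∀ (j : ℕ) (y : ℝ), 0 ≤ uj ℓ j y ∧ uj ℓ j (-y) = uj ℓ j y ∧
    uj ℓ j y ≤ C * ((j : ℝ) + 1) ^ (((ℓ : ℝ) - 1) / 2) * Real.exp (-(ℓ : ℝ) * |y| / 2))

/-- Fourier transform of the kernel -/
def T_K1 : Prop := ∀ ℓ : ℕ, 1 ≤ ℓ → Continuous (kk ℓ) ∧ Integrable (kk ℓ) ∧ (∀ y, 0 < kk ℓ y) ∧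
  ∀ x : ℝ, ∫ y : ℝ, (kk ℓ y : ℂ) * Complex.exp (Complex.I * x * y) = (ss ℓ x : ℂ)

/-- bounds for the symbol -/
def T_K2 : Prop := ∀ ℓ : ℕ, 1 ≤ ℓ → Continuous (ss ℓ) ∧
  ∀ x : ℝ, 0 < ss ℓ x ∧ ss ℓ x ≤ (1 + 4 * x ^ 2 / (ℓ : ℝ) ^ 2)⁻¹ ∧ ss ℓ (-x) = ss ℓ x

/-- convolution powers -/
def T_K3 : Prop := ∀ ℓ : ℕ, 1 ≤ ℓ → (∀ y, km ℓ 1 y = kk ℓ y) ∧
  ∀ m : ℕ, 1 ≤ m → Continuous (km ℓ m) ∧ Integrable (km ℓ m) ∧ (∀ y, 0 ≤ km ℓ m y) ∧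
    (∀ y, km ℓ m y ≤ km ℓ m 0) ∧ (∀ y, km ℓ m (-y) = km ℓ m y) ∧ ∫ y, km ℓ m y = 1 ∧
    (∀ y, ∫ z, kk ℓ (y - z) * km ℓ m z = km ℓ (m + 1) y) ∧
    km ℓ m 0 ≤ ℓ / (4 * Real.sqrt m)

/-- the exponent as a series -/
def T_K4 : Prop := ∀ ℓ : ℕ, 1 ≤ ℓ →
  HasSum (fun m : ℕ => km ℓ (m + 1) 0 / ((m : ℝ) + 1)) (2 * theta ℓ)

/-- upper bound of the traces by pointwise positivity -/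
def T_TR1 : Prop := ∀ ℓ : ℕ, 2 ≤ ℓ → ∀ m : ℕ, 1 ≤ m → ∀ n : ℕ,
  ((SS ℓ n) ^ (m + 1)).trace ≤ ∑ j : Fin n, ∫ y, uj ℓ j y * ∫ z, km ℓ m (y - z) * uj ℓ j z

/-- upper bound of the traces, uniform in the power -/
def T_TR2 : Prop := ∀ ℓ : ℕ, 2 ≤ ℓ → ∃ C : ℝ, ∀ m : ℕ, 1 ≤ m → ∀ n : ℕ, 1 ≤ n →
  ((SS ℓ n) ^ (m + 1)).trace ≤ C * km ℓ m 0 * Real.log (n + 1)

/-- sharp upper bound of the traces -/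
def T_TR3 : Prop := ∀ ℓ : ℕ, 2 ≤ ℓ → ∀ m : ℕ, 1 ≤ m → ∃ C : ℝ, ∀ n : ℕ, 1 ≤ n →
  ((SS ℓ n) ^ m).trace ≤ km ℓ m 0 * Real.log n + C

/-- the truncated kernel is almost the full kernel on `|y| ≤ log n - A` -/
def T_RAT : Prop := ∀ ℓ : ℕ, 2 ≤ ℓ → ∀ ε : ℝ, 0 < ε → ∃ A : ℝ, 0 ≤ A ∧ ∀ n : ℕ, 1 ≤ n →
  ∀ y z : ℝ, |y| ≤ Real.log n - A → |z| ≤ Real.log n - A →
    (1 - ε) * ((kk ℓ (y - z) + kk ℓ (y + z)) / 2) ≤ ∑ j ∈ Finset.range n, uj ℓ j y * uj ℓ j z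

/-- sharp lower bound of the traces -/
def T_TR4 : Prop := ∀ ℓ : ℕ, 2 ≤ ℓ → ∀ m : ℕ, 1 ≤ m → ∀ ε : ℝ, 0 < ε →
  ∀ᶠ n : ℕ in atTop, (km ℓ m 0 - ε) * Real.log n ≤ ((SS ℓ n) ^ m).trace

/-- logarithm of a determinant -/
def T_DET : Prop := ∀ (n : ℕ) (S : Matrix (Fin n) (Fin n) ℝ), S.PosSemidef →
  Tendsto (fun m : ℕ => (S ^ m).trace) atTop (𝓝 0) →
    0 < (1 - S).det ∧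
      HasSum (fun m : ℕ => (S ^ (m + 1)).trace / ((m : ℝ) + 1)) (-Real.log (1 - S).det)

/-- the asymptotics of the determinants -/
def T_ASY : Prop := ∀ ℓ : ℕ, 2 ≤ ℓ →
  Tendsto (fun n : ℕ => Real.log ((1 - SS ℓ n).det) / Real.log n) atTop (𝓝 (-2 * theta ℓ))

end Pool.Agent.H84.TO
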